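import Pool.Agent.Work.MP_4bfeea_al.All.Defs

/-!
# MP_4bfeea_al : induction principle and universal property of the vacuum module
-/

noncomputable section

attribute [local instance 100] LieRing.ofAssociativeRing

namespace MP4bfeeaAll

open UniversalEnvelopingAlgebra

universe u v w

section general

variable {R : Type u} {L : Type v} [CommRing R] [LieRing L] [LieAlgebra R L]

theorem subalgebra_eq_top (S : Subalgebra R (UniversalEnvelopingAlgebra R L))
    (h : ∀ x : L, ι R x ∈ S) : S = ⊤ := by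
  let f : L →ₗ⁅R⁆ S :=
    { toFun := fun x => ⟨ι R x, h x⟩
      map_add' := fun x y => Subtype.ext (by simp)
      map_smul' := fun c x => Subtype.ext (by simp)
      map_lie' := fun {x y} => Subtype.ext (by
        simp only [LieHom.map_lie]
        rfl) }
  have key : S.val.comp (lift R f) = AlgHom.id R _ := by
    apply hom_ext
    ext x
    simp only [LieHom.comp_apply, AlgHom.coe_toLieHom, AlgHom.comp_apply, lift_ι_apply]
    rfl
  rw [eq_top_iff]
  intro u _
  have := congrArg (fun F => F u) key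
  simp only [AlgHom.comp_apply, AlgHom.id_apply] at this
  rw [← this]
  exact (lift R f u).2

theorem uea_induction {P : UniversalEnvelopingAlgebra R L → Prop}
    (h1 : P 1) (hadd : ∀ u v, P u → P v → P (u + v)) (hsmul : ∀ (c : R) u, P u → P (c • u))
    (hmul : ∀ (x : L) u, P u → P (ι R x * u)) (u) : P u := by
  let S : Subalgebra R (UniversalEnvelopingAlgebra R L) :=
    { carrier := {a | ∀ u, P u → P (a * u)}
      mul_mem' := by
        intro a b ha hb u hu
        rw [mul_assoc]; exact ha _ (hb _ hu)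
      add_mem' := by
        intro a b ha hb u hu
        rw [add_mul]; exact hadd _ _ (ha _ hu) (hb _ hu)
      algebraMap_mem' := by
        intro r u hu
        rw [← Algebra.smul_def]; exact hsmul _ _ hu }
  have hS : S = ⊤ := subalgebra_eq_top S (fun x u hu => hmul x u hu)
  have : u ∈ S := by rw [hS]; trivial
  simpa using this 1 h1

end general

variable {K : Type u} [Field K] {L : Type v} [LieRing L] [LieAlgebra K L] {B : InvForm K L} {κ : K}

instance (κ : K) : IsScalarTower K (U B) (V B κ) :=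
  inferInstanceAs (IsScalarTower K (U B) (U B ⧸ J B κ))

variable (B) in
/-- `x ↦ x_n` as a linear map. -/
def xmL (n : ℤ) : L →ₗ[K] Aff B where
  toFun x := xm B n x
  map_add' x y := Prod.ext (Finsupp.single_add n x y) (add_zero (0 : K)).symm
  map_smul' c x := Prod.ext (Finsupp.smul_single c n x).symm (smul_zero c).symm

theorem xmL_apply (n : ℤ) (x : L) : xmL B n x = xm B n x := rfl

theorem lie_xm_xm (m n : ℤ) (x y : L) :
    ⁅xmL B m x, xmL B n y⁆ =
      xmL B (m + n) ⁅x, y⁆ + (if m + n = 0 then (m : K) * B.form x y else 0) • cc B := by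
  apply Prod.ext
  · refine (loopBr_single m n x y).trans ?_
    exact (show Finsupp.single (m + n) ⁅x, y⁆ + (_ : K) • (0 : ℤ →₀ L) = _ by simp).symm
  · refine (cocycle_single B m n x y).trans ?_
    exact (show (0 : K) + (_ : K) • (1 : K) = _ by simp).symm

variable (B) in
/-- The action of `ĝ` on `V^κ`, as a bilinear map. -/
def actL (κ : K) : Aff B →ₗ[K] V B κ →ₗ[K] V B κ where
  toFun X :=
    { toFun := fun v => (ι K X : U B) • v
      map_add' := fun v w => smul_add _ v w
      map_smul' := fun c v => smul_comm _ c v }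
  map_add' X Y := LinearMap.ext fun v => by
    simp only [map_add, LinearMap.coe_mk, AddHom.coe_mk, LinearMap.add_apply, add_smul]
  map_smul' c X := LinearMap.ext fun v => by
    simp only [map_smul, LinearMap.coe_mk, AddHom.coe_mk, LinearMap.smul_apply, smul_assoc,
      RingHom.id_apply]

theorem actL_eq_act (X : Aff B) (v : V B κ) : actL B κ X v = act B X v := rfl

theorem act_apply (X : Aff B) (v : V B κ) : actL B κ X v = (ι K X : U B) • v := rfl

theorem smul_vac (u : U B) : u • vac B κ = (Submodule.Quotient.mk u : U B ⧸ J B κ) := by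
  change (Submodule.Quotient.mk (u • (1 : U B)) : U B ⧸ J B κ) = _
  rw [smul_eq_mul, mul_one]

theorem vac_generates (v : V B κ) : ∃ u : U B, v = u • vac B κ := by
  obtain ⟨u, rfl⟩ := Submodule.Quotient.mk_surjective (J B κ) v
  exact ⟨u, (smul_vac u).symm⟩

theorem V_induction {P : V B κ → Prop} (h0 : P (vac B κ)) (hadd : ∀ v w, P v → P w → P (v + w))
    (hsmul : ∀ (c : K) v, P v → P (c • v)) (hact : ∀ X v, P v → P (actL B κ X v)) (v : V B κ) : P v := by
  obtain ⟨u, rfl⟩ := vac_generates v
  refine uea_induction (P := fun u => P (u • vac B κ)) ?_ ?_ ?_ ?_ u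
  · simpa using h0
  · intro a b ha hb; rw [add_smul]; exact hadd _ _ ha hb
  · intro c a ha; rw [smul_assoc]; exact hsmul _ _ ha
  · intro X a ha; rw [mul_smul]; exact hact _ _ ha

theorem V_hom_ext {N : Type w} [AddCommGroup N] [Module K N] {f g : V B κ →ₗ[K] N}
    (h0 : f (vac B κ) = g (vac B κ))
    (h : ∀ X v, f v = g v → f (actL B κ X v) = g (actL B κ X v)) : f = g := by
  refine LinearMap.ext fun v => ?_
  refine V_induction (P := fun v => f v = g v) h0 ?_ ?_ h v
  · intro v w hv hw; rw [map_add, map_add, hv, hw]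
  · intro c v hv; rw [map_smul, map_smul, hv]

theorem act_xm_vac (n : ℤ) (hn : 0 ≤ n) (x : L) : actL B κ (xmL B n x) (vac B κ) = 0 := by
  change (Submodule.Quotient.mk ((ι K (xmL B n x) : U B) • (1 : U B)) : U B ⧸ J B κ) = 0
  rw [Submodule.Quotient.mk_eq_zero, smul_eq_mul, mul_one]
  exact Submodule.subset_span (Or.inl ⟨n, x, hn, rfl⟩)

theorem act_cc_vac : actL B κ (cc B) (vac B κ) = κ • vac B κ := by
  have : (Submodule.Quotient.mk (ι K (cc B) - algebraMap K (U B) κ : U B) : U B ⧸ J B κ) = 0 := by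
    rw [Submodule.Quotient.mk_eq_zero]
    exact Submodule.subset_span (Or.inr rfl)
  rw [Submodule.Quotient.mk_sub, sub_eq_zero] at this
  change (Submodule.Quotient.mk ((ι K (cc B) : U B) • (1 : U B)) : U B ⧸ J B κ) =
    (Submodule.Quotient.mk (κ • (1 : U B)) : U B ⧸ J B κ)
  rw [smul_eq_mul, mul_one, this, Algebra.algebraMap_eq_smul_one]

theorem act_lie (X Y : Aff B) (v : V B κ) :
    actL B κ ⁅X, Y⁆ v = actL B κ X (actL B κ Y v) - actL B κ Y (actL B κ X v) := by
  simp only [act_apply, LieHom.map_lie, LieRing.of_associative_ring_bracket, sub_smul, mul_smul]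

theorem V_lift {N : Type w} [AddCommGroup N] [Module K N] (ρ : Aff B →ₗ⁅K⁆ Module.End K N) (n0 : N)
    (h1 : ∀ (n : ℤ) (x : L), 0 ≤ n → ρ (xmL B n x) n0 = 0) (h2 : ρ (cc B) n0 = κ • n0) :
    ∃ f : V B κ →ₗ[K] N, f (vac B κ) = n0 ∧ ∀ X v, f (actL B κ X v) = ρ X (f v) := by
  let F := lift K ρ
  let g : U B →ₗ[K] N := (LinearMap.applyₗ n0).comp F.toLinearMap
  have hg : ∀ u, g u = F u n0 := fun u => rfl
  have hker : (J B κ).restrictScalars K ≤ LinearMap.ker g := by
    intro u hu
    rw [Submodule.restrictScalars_mem] at hu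
    rw [LinearMap.mem_ker]
    induction hu using Submodule.span_induction with
    | mem s hs =>
      rcases hs with ⟨n, x, hn, rfl⟩ | rfl
      · rw [hg, lift_ι_apply]; exact h1 n x hn
      · rw [hg, map_sub, lift_ι_apply, AlgHom.commutes, LinearMap.sub_apply, h2]
        simp
    | zero => simp
    | add a b _ _ ha hb => rw [map_add, ha, hb, add_zero]
    | smul a x _ hx => rw [hg, smul_eq_mul, map_mul, Module.End.mul_apply, ← hg, hx, map_zero]
  let e : V B κ →ₗ[K] (U B ⧸ (J B κ).restrictScalars K) :=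
    (Submodule.Quotient.restrictScalarsEquiv K (J B κ)).symm.toLinearMap
  let f : V B κ →ₗ[K] N := (Submodule.liftQ ((J B κ).restrictScalars K) g hker).comp e
  have hf : ∀ u : U B, f (u • vac B κ) = F u n0 := by
    intro u
    rw [← hg]
    rw [smul_vac]
    rfl
  refine ⟨f, ?_, ?_⟩
  · have := hf 1
    rw [one_smul] at this
    rw [this, map_one]; rfl
  · intro X v
    obtain ⟨u, rfl⟩ := vac_generates v
    rw [act_apply, ← mul_smul, hf, hf, map_mul, lift_ι_apply]
    rfl

/-! ### The universal vacuum module, with `c` free -/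

variable (B) in
/-- The left ideal generated by `x_n`, `n ≥ 0`. -/
def Jc : Submodule (U B) (U B) :=
  Submodule.span (U B) {u | ∃ (n : ℤ) (x : L), 0 ≤ n ∧ u = UniversalEnvelopingAlgebra.ι K (xm B n x)}

variable (B) in
/-- The module `U(ĝ) / U(ĝ) (K[t] ⊗ L)`. -/
def Vc : Type (max u v) := U B ⧸ Jc B

instance : AddCommGroup (Vc B) := Submodule.Quotient.addCommGroup (Jc B)
instance : Module (U B) (Vc B) := Submodule.Quotient.module (Jc B)
instance : Module K (Vc B) := Submodule.Quotient.module' (Jc B)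
instance : IsScalarTower K (U B) (Vc B) :=
  inferInstanceAs (IsScalarTower K (U B) (U B ⧸ Jc B))

variable (B) in
/-- The vacuum vector. -/
def vacc : Vc B := (Submodule.Quotient.mk (1 : U B) : U B ⧸ Jc B)

variable (B) in
/-- The action of `ĝ` on `Vc`, as a bilinear map. -/
def actc : Aff B →ₗ[K] Vc B →ₗ[K] Vc B where
  toFun X :=
    { toFun := fun v => (ι K X : U B) • v
      map_add' := fun v w => smul_add _ v w
      map_smul' := fun c v => smul_comm _ c v }
  map_add' X Y := LinearMap.ext fun v => by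
    simp only [map_add, LinearMap.coe_mk, AddHom.coe_mk, LinearMap.add_apply, add_smul]
  map_smul' c X := LinearMap.ext fun v => by
    simp only [map_smul, LinearMap.coe_mk, AddHom.coe_mk, LinearMap.smul_apply, smul_assoc,
      RingHom.id_apply]

theorem actc_apply (X : Aff B) (v : Vc B) : actc B X v = (ι K X : U B) • v := rfl

theorem smul_vacc (u : U B) : u • vacc B = (Submodule.Quotient.mk u : U B ⧸ Jc B) := by
  change (Submodule.Quotient.mk (u • (1 : U B)) : U B ⧸ Jc B) = _
  rw [smul_eq_mul, mul_one]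

theorem vacc_generates (v : Vc B) : ∃ u : U B, v = u • vacc B := by
  obtain ⟨u, rfl⟩ := Submodule.Quotient.mk_surjective (Jc B) v
  exact ⟨u, (smul_vacc u).symm⟩

theorem Vc_induction {P : Vc B → Prop} (h0 : P (vacc B)) (hadd : ∀ v w, P v → P w → P (v + w))
    (hsmul : ∀ (c : K) v, P v → P (c • v)) (hact : ∀ X v, P v → P (actc B X v)) (v : Vc B) :
    P v := by
  obtain ⟨u, rfl⟩ := vacc_generates v
  refine uea_induction (P := fun u => P (u • vacc B)) ?_ ?_ ?_ ?_ u
  · simpa using h0
  · intro a b ha hb; rw [add_smul]; exact hadd _ _ ha hb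
  · intro c a ha; rw [smul_assoc]; exact hsmul _ _ ha
  · intro X a ha; rw [mul_smul]; exact hact _ _ ha

theorem Vc_hom_ext {N : Type w} [AddCommGroup N] [Module K N] {f g : Vc B →ₗ[K] N}
    (h0 : f (vacc B) = g (vacc B))
    (h : ∀ X v, f v = g v → f (actc B X v) = g (actc B X v)) : f = g := by
  refine LinearMap.ext fun v => ?_
  refine Vc_induction (P := fun v => f v = g v) h0 ?_ ?_ h v
  · intro v w hv hw; rw [map_add, map_add, hv, hw]
  · intro c v hv; rw [map_smul, map_smul, hv]

theorem actc_xm_vac (n : ℤ) (hn : 0 ≤ n) (x : L) : actc B (xmL B n x) (vacc B) = 0 := by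
  change (Submodule.Quotient.mk ((ι K (xmL B n x) : U B) • (1 : U B)) : U B ⧸ Jc B) = 0
  rw [Submodule.Quotient.mk_eq_zero, smul_eq_mul, mul_one]
  exact Submodule.subset_span ⟨n, x, hn, rfl⟩

theorem actc_lie (X Y : Aff B) (v : Vc B) :
    actc B ⁅X, Y⁆ v = actc B X (actc B Y v) - actc B Y (actc B X v) := by
  simp only [actc_apply, LieHom.map_lie, LieRing.of_associative_ring_bracket, sub_smul, mul_smul]

theorem actc_comm (X Y : Aff B) (v : Vc B) :
    actc B X (actc B Y v) = actc B ⁅X, Y⁆ v + actc B Y (actc B X v) := by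
  rw [actc_lie]; abel

theorem Vc_lift {N : Type w} [AddCommGroup N] [Module K N] (ρ : Aff B →ₗ⁅K⁆ Module.End K N) (n0 : N)
    (h1 : ∀ (n : ℤ) (x : L), 0 ≤ n → ρ (xmL B n x) n0 = 0) :
    ∃ f : Vc B →ₗ[K] N, f (vacc B) = n0 ∧ ∀ X v, f (actc B X v) = ρ X (f v) := by
  let F := lift K ρ
  let g : U B →ₗ[K] N := (LinearMap.applyₗ n0).comp F.toLinearMap
  have hg : ∀ u, g u = F u n0 := fun u => rfl
  have hker : (Jc B).restrictScalars K ≤ LinearMap.ker g := by
    intro u hu
    rw [Submodule.restrictScalars_mem] at hu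
    rw [LinearMap.mem_ker]
    induction hu using Submodule.span_induction with
    | mem s hs =>
      obtain ⟨n, x, hn, rfl⟩ := hs
      rw [hg, lift_ι_apply]; exact h1 n x hn
    | zero => simp
    | add a b _ _ ha hb => rw [map_add, ha, hb, add_zero]
    | smul a x _ hx => rw [hg, smul_eq_mul, map_mul, Module.End.mul_apply, ← hg, hx, map_zero]
  let e : Vc B →ₗ[K] (U B ⧸ (Jc B).restrictScalars K) :=
    (Submodule.Quotient.restrictScalarsEquiv K (Jc B)).symm.toLinearMap
  let f : Vc B →ₗ[K] N := (Submodule.liftQ ((Jc B).restrictScalars K) g hker).comp e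
  have hf : ∀ u : U B, f (u • vacc B) = F u n0 := by
    intro u
    rw [← hg]
    rw [smul_vacc]
    rfl
  refine ⟨f, ?_, ?_⟩
  · have := hf 1
    rw [one_smul] at this
    rw [this, map_one]; rfl
  · intro X v
    obtain ⟨u, rfl⟩ := vacc_generates v
    rw [actc_apply, ← mul_smul, hf, hf, map_mul, lift_ι_apply]
    rfl

theorem cc_lie (X : Aff B) : ⁅cc B, X⁆ = 0 :=
  Prod.ext (loopBr_zero_left X.1) (cocycle_zero_left B X.1)

theorem lie_cc (X : Aff B) : ⁅X, cc B⁆ = 0 := by
  rw [← lie_skew, cc_lie, neg_zero]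

theorem ι_cc_comm (u : U B) : (ι K (cc B) : U B) * u = u * ι K (cc B) := by
  induction u using uea_induction with
  | h1 => rw [mul_one, one_mul]
  | hadd a b ha hb => rw [mul_add, add_mul, ha, hb]
  | hsmul c a ha => rw [mul_smul_comm, smul_mul_assoc, ha]
  | hmul X a ha =>
    have h := (ι K : Aff B →ₗ⁅K⁆ U B).map_lie (cc B) X
    rw [cc_lie, map_zero, LieRing.of_associative_ring_bracket] at h
    rw [← mul_assoc, sub_eq_zero.mp h.symm, mul_assoc, ha, mul_assoc]

/-- The projection `Vc → V^κ`. -/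
theorem exists_proj (κ : K) : ∃ f : Vc B →ₗ[U B] V B κ, f (vacc B) = vac B κ ∧
    ∀ v, f v = 0 → ∃ w, v = actc B (cc B) w - κ • w := by
  have hle : Jc B ≤ J B κ := Submodule.span_mono Set.subset_union_left
  let f : Vc B →ₗ[U B] V B κ := Submodule.factor hle
  refine ⟨f, rfl, ?_⟩
  intro v hv
  obtain ⟨u, rfl⟩ := vacc_generates v
  rw [map_smul] at hv
  change u • vac B κ = 0 at hv
  rw [smul_vac] at hv
  replace hv : (Submodule.Quotient.mk u : U B ⧸ J B κ) = 0 := hv
  rw [Submodule.Quotient.mk_eq_zero, J, Submodule.span_union,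
    Submodule.mem_sup] at hv
  obtain ⟨y, hy, z, hz, rfl⟩ := hv
  rw [Submodule.mem_span_singleton] at hz
  obtain ⟨a, rfl⟩ := hz
  refine ⟨a • vacc B, ?_⟩
  have h1 : y • vacc B = 0 := by
    rw [smul_vacc]
    exact (Submodule.Quotient.mk_eq_zero (Jc B)).mpr hy
  rw [add_smul, h1, zero_add, smul_eq_mul, mul_sub, sub_smul, actc_apply, ← mul_smul, ι_cc_comm,
    ← Algebra.commutes, mul_smul (algebraMap K (U B) κ), algebraMap_smul]

end MP4bfeeaAll
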