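import Mathlib

/-!
# MP_4bfeea_al : universal affine vertex algebras
Definitions used by the statement (all simple Lie algebras, all levels).
-/

noncomputable section

namespace MP4bfeeaAll

universe u v w

/-- An invariant symmetric bilinear form on a Lie algebra. -/
structure InvForm (K : Type u) [Field K] (L : Type v) [LieRing L] [LieAlgebra K L] where
  /-- the form -/
  form : L → L → K
  add_left : ∀ x y z, form (x + y) z = form x z + form y z
  smul_left : ∀ (c : K) x y, form (c • x) y = c * form x y
  symm : ∀ x y, form x y = form y x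
  inv : ∀ x y z, form ⁅x, y⁆ z = form x ⁅y, z⁆

variable {K : Type u} [Field K] {L : Type v} [LieRing L] [LieAlgebra K L] (B : InvForm K L)

theorem InvForm.add_right (x y z : L) : B.form x (y + z) = B.form x y + B.form x z := by
  rw [B.symm, B.add_left, B.symm y, B.symm z]

theorem InvForm.smul_right (c : K) (x y : L) : B.form x (c • y) = c * B.form x y := by
  rw [B.symm, B.smul_left, B.symm y]

theorem InvForm.zero_left (y : L) : B.form 0 y = 0 := by
  have := B.smul_left 0 0 y
  rwa [zero_smul, zero_mul] at this

theorem InvForm.zero_right (y : L) : B.form y 0 = 0 := by rw [B.symm, B.zero_left]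

theorem InvForm.neg_left (x y : L) : B.form (-x) y = - B.form x y := by
  have := B.add_left (-x) x y
  rw [neg_add_cancel, B.zero_left] at this
  linear_combination -this

theorem InvForm.self_lie (x y : L) : B.form x ⁅x, y⁆ = 0 := by
  rw [← B.inv, lie_self, B.zero_left]

/-- The bracket of the loop algebra `K[t,t⁻¹] ⊗ L = (ℤ →₀ L)`: `[x_m, y_n] = [x, y]_{m+n}`, where
`x_m = t^m ⊗ x = Finsupp.single m x`. -/
def loopBr (f g : ℤ →₀ L) : ℤ →₀ L :=
  f.sum fun m x => g.sum fun n y => Finsupp.single (m + n) ⁅x, y⁆

/-- The cocycle of the affine Lie algebra: `ω(x_m, y_n) = m δ_{m+n,0} ⟨x, y⟩`. -/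
def cocycle (f g : ℤ →₀ L) : K :=
  f.sum fun m x => g.sum fun n y => if m + n = 0 then (m : K) * B.form x y else 0

/-- The affine Lie algebra `K[t,t⁻¹] ⊗ L ⊕ K c`. -/
def Aff (_B : InvForm K L) : Type (max u v) := (ℤ →₀ L) × K

instance : AddCommGroup (Aff B) := (Prod.instAddCommGroup : AddCommGroup ((ℤ →₀ L) × K))
instance : Module K (Aff B) := (Prod.instModule : Module K ((ℤ →₀ L) × K))

@[simp] theorem loopBr_zero_left (g : ℤ →₀ L) : loopBr 0 g = 0 := by simp [loopBr]

@[simp] theorem loopBr_zero_right (g : ℤ →₀ L) : loopBr g 0 = 0 := by simp [loopBr]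

theorem loopBr_add_left (f f' g : ℤ →₀ L) : loopBr (f + f') g = loopBr f g + loopBr f' g := by
  unfold loopBr
  rw [Finsupp.sum_add_index']
  · intro m; simp
  · intro m x y; simp [← Finsupp.sum_add]

theorem loopBr_add_right (f g g' : ℤ →₀ L) : loopBr f (g + g') = loopBr f g + loopBr f g' := by
  unfold loopBr
  rw [← Finsupp.sum_add]
  congr 1
  funext m x
  rw [Finsupp.sum_add_index']
  · intro n; simp
  · intro n y z; simp

@[simp] theorem cocycle_zero_left (g : ℤ →₀ L) : cocycle B 0 g = 0 := by simp [cocycle]

@[simp] theorem cocycle_zero_right (g : ℤ →₀ L) : cocycle B g 0 = 0 := by simp [cocycle]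

theorem cocycle_add_left (f f' g : ℤ →₀ L) :
    cocycle B (f + f') g = cocycle B f g + cocycle B f' g := by
  unfold cocycle
  rw [Finsupp.sum_add_index']
  · intro m; simp [B.zero_left]
  · intro m x y
    rw [← Finsupp.sum_add]
    congr 1
    funext n z
    rw [B.add_left]; split_ifs <;> ring

theorem cocycle_add_right (f g g' : ℤ →₀ L) :
    cocycle B f (g + g') = cocycle B f g + cocycle B f g' := by
  unfold cocycle
  rw [← Finsupp.sum_add]
  congr 1
  funext m x
  rw [Finsupp.sum_add_index']
  · intro n; simp [B.zero_right]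
  · intro n y z
    rw [B.add_right]; split_ifs <;> ring

@[simp] theorem loopBr_single (m n : ℤ) (x y : L) :
    loopBr (Finsupp.single m x) (Finsupp.single n y) = Finsupp.single (m + n) ⁅x, y⁆ := by
  simp [loopBr]

@[simp] theorem cocycle_single (m n : ℤ) (x y : L) :
    cocycle B (Finsupp.single m x) (Finsupp.single n y)
      = if m + n = 0 then (m : K) * B.form x y else 0 := by
  unfold cocycle
  rw [Finsupp.sum_single_index, Finsupp.sum_single_index]
  · simp [B.zero_right]
  · rw [Finsupp.sum_single_index] <;> simp [B.zero_left]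

theorem loopBr_skew (f g : ℤ →₀ L) : loopBr f g = - loopBr g f := by
  induction f using Finsupp.induction_linear with
  | zero => simp
  | add a b ha hb => rw [loopBr_add_left, ha, hb, loopBr_add_right, neg_add]
  | single m x =>
    induction g using Finsupp.induction_linear with
    | zero => simp
    | add a b ha hb => rw [loopBr_add_right, ha, hb, loopBr_add_left, neg_add]
    | single n y => rw [loopBr_single, loopBr_single, add_comm, ← lie_skew, Finsupp.single_neg]

theorem cocycle_skew (f g : ℤ →₀ L) : cocycle B f g = - cocycle B g f := by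
  induction f using Finsupp.induction_linear with
  | zero => simp
  | add a b ha hb => rw [cocycle_add_left, ha, hb, cocycle_add_right, neg_add]
  | single m x =>
    induction g using Finsupp.induction_linear with
    | zero => simp
    | add a b ha hb => rw [cocycle_add_right, ha, hb, cocycle_add_left, neg_add]
    | single n y =>
      rw [cocycle_single, cocycle_single, add_comm n m, B.symm]
      split_ifs with h
      · have : n = -m := by omega
        subst this; push_cast; ring
      · simp

theorem loopBr_self (f : ℤ →₀ L) : loopBr f f = 0 := by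
  induction f using Finsupp.induction_linear with
  | zero => simp
  | add a b ha hb =>
    rw [loopBr_add_left, loopBr_add_right, loopBr_add_right, ha, hb, loopBr_skew b a]; simp
  | single m x => simp

theorem cocycle_self (f : ℤ →₀ L) : cocycle B f f = 0 := by
  induction f using Finsupp.induction_linear with
  | zero => simp
  | add a b ha hb =>
    rw [cocycle_add_left, cocycle_add_right, cocycle_add_right, ha, hb, cocycle_skew B b a]; simp
  | single m x =>
    rw [cocycle_single]
    split_ifs with h
    · have : m = 0 := by omega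
      subst this; simp
    · rfl

theorem loopBr_jacobi (f g h : ℤ →₀ L) :
    loopBr f (loopBr g h) = loopBr (loopBr f g) h + loopBr g (loopBr f h) := by
  induction f using Finsupp.induction_linear with
  | zero => simp
  | add a b ha hb => simp only [loopBr_add_left, loopBr_add_right, ha, hb]; abel
  | single m x =>
    induction g using Finsupp.induction_linear with
    | zero => simp
    | add a b ha hb => simp only [loopBr_add_left, loopBr_add_right, ha, hb]; abel
    | single n y =>
      induction h using Finsupp.induction_linear with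
      | zero => simp
      | add a b ha hb => simp only [loopBr_add_right, ha, hb]; abel
      | single k z =>
        simp only [loopBr_single]
        rw [show m + (n + k) = m + n + k by ring, show n + (m + k) = m + n + k by ring,
          ← Finsupp.single_add, ← leibniz_lie]

theorem cocycle_jacobi (f g h : ℤ →₀ L) :
    cocycle B f (loopBr g h) = cocycle B (loopBr f g) h + cocycle B g (loopBr f h) := by
  induction f using Finsupp.induction_linear with
  | zero => simp
  | add a b ha hb =>
    simp only [loopBr_add_left, cocycle_add_left, cocycle_add_right, ha, hb]; abel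
  | single m x =>
    induction g using Finsupp.induction_linear with
    | zero => simp
    | add a b ha hb =>
      simp only [loopBr_add_left, loopBr_add_right, cocycle_add_left, cocycle_add_right, ha, hb]
      abel
    | single n y =>
      induction h using Finsupp.induction_linear with
      | zero => simp
      | add a b ha hb => simp only [loopBr_add_right, cocycle_add_right, ha, hb]; abel
      | single k z =>
        simp only [loopBr_single, cocycle_single]
        rw [show m + (n + k) = m + n + k by ring, show n + (m + k) = m + n + k by ring]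
        split_ifs with h
        · have h1 : B.form x ⁅y, z⁆ = B.form ⁅x, y⁆ z := (B.inv x y z).symm
          have h2 : B.form y ⁅x, z⁆ = - B.form ⁅x, y⁆ z := by
            rw [← B.inv y x z, ← lie_skew x y, B.neg_left, neg_neg]
          rw [h1, h2]; push_cast; ring
        · simp

instance : Bracket (Aff B) (Aff B) where
  bracket X Y := (loopBr X.1 Y.1, cocycle B X.1 Y.1)

instance : LieRing (Aff B) where
  add_lie X Y Z := Prod.ext (loopBr_add_left X.1 Y.1 Z.1) (cocycle_add_left B X.1 Y.1 Z.1)
  lie_add X Y Z := Prod.ext (loopBr_add_right X.1 Y.1 Z.1) (cocycle_add_right B X.1 Y.1 Z.1)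
  lie_self X := Prod.ext (loopBr_self X.1) (cocycle_self B X.1)
  leibniz_lie X Y Z := Prod.ext (loopBr_jacobi X.1 Y.1 Z.1) (cocycle_jacobi B X.1 Y.1 Z.1)

theorem loopBr_smul_right (c : K) (f g : ℤ →₀ L) : loopBr f (c • g) = c • loopBr f g := by
  induction f using Finsupp.induction_linear with
  | zero => simp
  | add a b ha hb => rw [loopBr_add_left, ha, hb, loopBr_add_left, smul_add]
  | single m x =>
    induction g using Finsupp.induction_linear with
    | zero => simp
    | add a b ha hb => rw [smul_add, loopBr_add_right, ha, hb, loopBr_add_right, smul_add]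
    | single n y => simp

theorem cocycle_smul_right (c : K) (f g : ℤ →₀ L) :
    cocycle B f (c • g) = c • cocycle B f g := by
  induction f using Finsupp.induction_linear with
  | zero => simp
  | add a b ha hb => rw [cocycle_add_left, ha, hb, cocycle_add_left, smul_add]
  | single m x =>
    induction g using Finsupp.induction_linear with
    | zero => simp
    | add a b ha hb => rw [smul_add, cocycle_add_right, ha, hb, cocycle_add_right, smul_add]
    | single n y =>
      rw [Finsupp.smul_single, cocycle_single, cocycle_single, B.smul_right, smul_eq_mul]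
      split_ifs <;> ring

instance : LieAlgebra K (Aff B) where
  lie_smul c X Y := Prod.ext (loopBr_smul_right c X.1 Y.1) (cocycle_smul_right B c X.1 Y.1)

/-- `x_n = t^n ⊗ x` in the affine Lie algebra. -/
def xm (n : ℤ) (x : L) : Aff B := (Finsupp.single n x, 0)

/-- The central element `c`. -/
def cc : Aff B := (0, 1)

/-- The enveloping algebra of the affine Lie algebra. -/
abbrev U := UniversalEnvelopingAlgebra K (Aff B)

/-- The left ideal generated by `x_n`, `n ≥ 0`, `x ∈ L`, and `c - κ`. -/
def J (κ : K) : Submodule (U B) (U B) :=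
  Submodule.span (U B)
    ({u | ∃ (n : ℤ) (x : L), 0 ≤ n ∧ u = UniversalEnvelopingAlgebra.ι K (xm B n x)} ∪
      {UniversalEnvelopingAlgebra.ι K (cc B) - algebraMap K (U B) κ})

/-- The vacuum module `V^κ = U(ĝ) ⊗_{U(K[t] ⊗ L ⊕ K c)} K_κ = U(ĝ) / J κ`. -/
def V (κ : K) : Type (max u v) := U B ⧸ J B κ

instance (κ : K) : AddCommGroup (V B κ) := Submodule.Quotient.addCommGroup (J B κ)
instance (κ : K) : Module (U B) (V B κ) := Submodule.Quotient.module (J B κ)
instance (κ : K) : Module K (V B κ) := Submodule.Quotient.module' (J B κ)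

/-- The vacuum vector. -/
def vac (κ : K) : V B κ := (Submodule.Quotient.mk (1 : U B) : U B ⧸ J B κ)

/-- The action of `X ∈ ĝ` on `V^κ`. -/
def act {κ : K} (X : Aff B) (v : V B κ) : V B κ := (UniversalEnvelopingAlgebra.ι K X : U B) • v

/-- A vertex algebra over `K` (Borcherds' definition, valid in every characteristic):
`Y(a, z) = ∑ₙ a_(n) z^{-n-1}` with `a_(n) b = prod n a b`; the divided powers of the translation
operator are `T^{(i)} a = a_(-i-1)|0⟩`. -/
structure VertexAlgebra (K : Type u) [Field K] (W : Type v) [AddCommGroup W] [Module K W] where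
  /-- the vacuum vector -/
  vac : W
  /-- the products `a_(n) b` -/
  prod : ℤ → W →ₗ[K] W →ₗ[K] W
  /-- `a_(n) b = 0` for `n` large -/
  trunc : ∀ a b : W, ∃ N : ℤ, ∀ n, N ≤ n → prod n a b = 0
  /-- `Y(|0⟩, z) = id` -/
  vac_prod : ∀ (n : ℤ) (b : W), prod n vac b = if n = -1 then b else 0
  /-- `Y(a, z)|0⟩ ∈ W[[z]]` -/
  prod_vac : ∀ (n : ℤ) (a : W), 0 ≤ n → prod n a vac = 0
  /-- `Y(a, z)|0⟩ ∈ a + z W[[z]]` -/
  creation : ∀ a : W, prod (-1) a vac = a
  /-- the Borcherds identity -/
  borcherds : ∀ (a b c : W) (l m n : ℤ),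
    ∑ᶠ j : ℕ, Ring.choose m j • prod (m + l - j) (prod (n + j) a b) c =
      ∑ᶠ j : ℕ, ((-1) ^ j * Ring.choose n j) •
        (prod (m + n - j) a (prod (l + j) b c)
          - (Int.negOnePow n : ℤ) • prod (n + l - j) b (prod (m + j) a c))

/-- The centre of a vertex algebra: `{v | Y(a, z) v ∈ W[[z]] for all a}`. -/
def VertexAlgebra.centre {K : Type u} [Field K] {W : Type v} [AddCommGroup W] [Module K W]
    (A : VertexAlgebra K W) : Set W :=
  {v | ∀ (a : W) (n : ℤ), 0 ≤ n → A.prod n a v = 0}

variable {B} in
/-- `A` is a structure of vertex algebra on `V^κ` with vacuum vector `|0⟩` and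
`Y(x_{-1}|0⟩, z) = ∑ₙ x_n z^{-n-1}`, `x ∈ L`. -/
def IsAffine {κ : K} (A : VertexAlgebra K (V B κ)) : Prop :=
  A.vac = vac B κ ∧ ∀ (x : L) (n : ℤ) (v : V B κ),
    A.prod n (act B (xm B (-1) x) (vac B κ)) v = act B (xm B n x) v

/-- `pm : L → L` is the `p`-power map `x ↦ x^{[p]}` of a restricted Lie algebra with trivial centre:
`ad (x^{[p]}) = (ad x)^p` (for trivial centre this determines `pm`). -/
def IsPMap (p : ℕ) (pm : L → L) : Prop :=
  ∀ x z : L, ⁅pm x, z⁆ = (fun y => ⁅x, y⁆)^[p] z

/-- `h` is the dual Coxeter number (as an element of `K`) of `L` with the form `⟨·,·⟩`: for dual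
families `(a_i)`, `(b_i)` (such as a basis of `L` and its dual basis: `x = ∑ ⟨x, a_i⟩ b_i` for all
`x`) the Casimir element `∑ a_i b_i` acts on `L` by the scalar `2 h`. -/
def IsDualCoxeter (h : K) : Prop :=
  ∃ (n : ℕ) (a b : Fin n → L), (∀ x : L, ∑ i, B.form x (a i) • b i = x) ∧
    ∀ x : L, ∑ i, ⁅a i, ⁅b i, x⁆⁆ = (2 * h) • x

/-- `𝒵₀'(ĝ)`: the subalgebra of `U(ĝ)` generated by the elements `(x_n)^p - (x^{[p]})_{np}`,
`x ∈ L`, `n ∈ ℤ`. -/
def Z0 (p : ℕ) (pm : L → L) : Subalgebra K (U B) :=
  Algebra.adjoin K {z | ∃ (n : ℤ) (x : L),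
    z = (UniversalEnvelopingAlgebra.ι K (xm B n x) : U B) ^ p
      - UniversalEnvelopingAlgebra.ι K (xm B (n * p) (pm x))}

/-- The `p`-centre `𝒵₀'(ĝ)|0⟩` of `V^κ`. -/
def pCentre (p : ℕ) (pm : L → L) (κ : K) : Set (V B κ) :=
  {v | ∃ z ∈ Z0 B p pm, v = z • vac B κ}

section sl

attribute [local instance 100] LieRing.ofAssociativeRing

variable (K)

/-- The Lie algebra `sl_n(K)` of trace zero `n × n` matrices. -/
def sl (n : ℕ) : Type u := LieAlgebra.SpecialLinear.sl (Fin n) K

instance (n : ℕ) : LieRing (sl K n) :=
  LieSubalgebra.lieRing K _ (LieAlgebra.SpecialLinear.sl (Fin n) K)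
instance (n : ℕ) : LieAlgebra K (sl K n) :=
  LieSubalgebra.lieAlgebra K _ (LieAlgebra.SpecialLinear.sl (Fin n) K)

/-- The normalised invariant form `⟨x, y⟩ = tr (x y)` on `sl_n`. -/
def trForm (n : ℕ) : InvForm K (sl K n) where
  form x y := Matrix.trace (x.1 * y.1)
  add_left x y z := by
    change Matrix.trace ((x.1 + y.1) * z.1) = _
    rw [add_mul, Matrix.trace_add]
  smul_left c x y := by
    change Matrix.trace ((c • x.1) * y.1) = _
    rw [smul_mul_assoc, Matrix.trace_smul, smul_eq_mul]
  symm x y := Matrix.trace_mul_comm x.1 y.1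
  inv x y z := by
    change Matrix.trace ((x.1 * y.1 - y.1 * x.1) * z.1) =
      Matrix.trace (x.1 * (y.1 * z.1 - z.1 * y.1))
    rw [sub_mul, mul_sub, Matrix.trace_sub, Matrix.trace_sub]
    rw [Matrix.trace_mul_cycle y.1 x.1 z.1, mul_assoc, mul_assoc,
      Matrix.trace_mul_comm z.1 (y.1 * x.1), Matrix.trace_mul_cycle' x.1 z.1 y.1, mul_assoc]

end sl

end MP4bfeeaAll
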