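import Pool.Agent.Work.MP_4bfeea_al.All.Induced

/-!
# MP_4bfeea_al : `Vc` is free over `K[c]`, and the evaluation map `Vc → A[c][X]`
-/

noncomputable section

attribute [local instance 100] LieRing.ofAssociativeRing

namespace MP4bfeeaAll

open UniversalEnvelopingAlgebra

universe u v w

variable {K : Type u} [Field K] {L : Type v} [LieRing L] [LieAlgebra K L] {B : InvForm K L}

theorem Aff_induction {P : Aff B → Prop} (hadd : ∀ X Y, P X → P Y → P (X + Y))
    (hx : ∀ m x, P (xmL B m x)) (hc : ∀ a : K, P (a • cc B)) (X : Aff B) : P X := by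
  let i : (ℤ →₀ L) →ₗ[K] Aff B := LinearMap.inl K (ℤ →₀ L) K
  have h1 : ∀ f : ℤ →₀ L, P (i f) := by
    intro f
    induction f using Finsupp.induction_linear with
    | zero => have := hc 0; rw [zero_smul] at this; rw [map_zero]; exact this
    | add a b ha hb => rw [map_add]; exact hadd _ _ ha hb
    | single m x => exact hx m x
  have h2 : X = i X.1 + X.2 • cc B := by
    apply Prod.ext
    · exact (show X.1 + X.2 • (0 : ℤ →₀ L) = X.1 by simp).symm
    · exact (show (0 : K) + X.2 • (1 : K) = X.2 by simp).symm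
  rw [h2]
  exact hadd _ _ (h1 _) (hc _)

variable (B) in
/-- A linear map out of `Aff B`. -/
def affLift {N : Type w} [AddCommGroup N] [Module K N] (F : ℤ → L →ₗ[K] N) (c : N) :
    Aff B →ₗ[K] N :=
  LinearMap.coprod (Finsupp.lsum K F) (LinearMap.toSpanSingleton K N c)

theorem affLift_xm {N : Type w} [AddCommGroup N] [Module K N] (F : ℤ → L →ₗ[K] N) (c : N)
    (m : ℤ) (x : L) : affLift B F c (xmL B m x) = F m x := by
  change LinearMap.coprod (Finsupp.lsum K F) (LinearMap.toSpanSingleton K N c)
    (Finsupp.single m x, (0 : K)) = _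
  simp

theorem affLift_cc {N : Type w} [AddCommGroup N] [Module K N] (F : ℤ → L →ₗ[K] N) (c : N) :
    affLift B F c (cc B) = c := by
  change LinearMap.coprod (Finsupp.lsum K F) (LinearMap.toSpanSingleton K N c)
    ((0 : ℤ →₀ L), (1 : K)) = _
  simp

/-! ### The negative part -/

/-- projection to the negative part -/
def neg0 : Aff B →ₗ[K] Aff B := affLift B (fun m => if m < 0 then xmL B m else 0) 0

theorem neg0_xm (m : ℤ) (x : L) : neg0 (xmL B m x) = if m < 0 then xmL B m x else 0 := by
  rw [neg0, affLift_xm]; split_ifs <;> rfl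

theorem neg0_cc : neg0 (cc B) = 0 := by rw [neg0, affLift_cc]

theorem neg0_neg0 (X : Aff B) : neg0 (neg0 X) = neg0 X := by
  induction X using Aff_induction with
  | hadd X Y hX hY => rw [map_add, map_add, hX, hY]
  | hx m x => rw [neg0_xm]; split_ifs with h <;> simp [neg0_xm, h]
  | hc a => rw [map_smul, neg0_cc, smul_zero, map_zero]

theorem neg0_lie (X Y : Aff B) : neg0 ⁅neg0 X, neg0 Y⁆ = ⁅neg0 X, neg0 Y⁆ := by
  induction X using Aff_induction with
  | hadd X X' hX hX' => rw [map_add, add_lie, map_add, hX, hX']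
  | hc a => rw [map_smul, neg0_cc, smul_zero, zero_lie, map_zero]
  | hx m x =>
    induction Y using Aff_induction with
    | hadd Y Y' hY hY' => rw [map_add, lie_add, map_add, hY, hY']
    | hc a => rw [map_smul, neg0_cc, smul_zero, lie_zero, map_zero]
    | hx n y =>
      rw [neg0_xm, neg0_xm]
      split_ifs with h1 h2
      · rw [lie_xm_xm, if_neg (by omega), zero_smul, add_zero, neg0_xm, if_pos (by omega)]
      all_goals simp

variable (B) in
/-- The Lie subalgebra `t⁻¹ L[t⁻¹]`. -/
def negAlg : LieSubalgebra K (Aff B) where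
  carrier := {X | neg0 X = X}
  add_mem' {X Y} hX hY := by
    change neg0 (X + Y) = X + Y
    rw [map_add, hX, hY]
  zero_mem' := map_zero _
  smul_mem' c X hX := by
    change neg0 (c • X) = c • X
    rw [map_smul, hX]
  lie_mem' {X Y} hX hY := by
    change neg0 ⁅X, Y⁆ = ⁅X, Y⁆
    have := neg0_lie X Y
    have hX' : neg0 X = X := hX
    have hY' : neg0 Y = Y := hY
    rwa [hX', hY'] at this

theorem mem_negAlg (X : Aff B) : X ∈ negAlg B ↔ neg0 X = X := Iff.rfl

/-- The projection `ĝ → t⁻¹ L[t⁻¹]`. -/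
def negProj : Aff B →ₗ[K] negAlg B where
  toFun X := ⟨neg0 X, neg0_neg0 X⟩
  map_add' X Y := Subtype.ext (map_add neg0 X Y)
  map_smul' c X := Subtype.ext (map_smul neg0 c X)

theorem negProj_coe (X : Aff B) : ((negProj X : negAlg B) : Aff B) = neg0 X := rfl

variable (B) in
/-- the coefficient of `c`. -/
def chi : Aff B →ₗ[K] K := affLift B (fun _ => 0) 1

theorem chi_xm (m : ℤ) (x : L) : chi B (xmL B m x) = 0 := by rw [chi, affLift_xm]; rfl

theorem chi_cc : chi B (cc B) = 1 := by rw [chi, affLift_cc]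

theorem chi_neg0 (X : Aff B) : chi B (neg0 X) = 0 := by
  induction X using Aff_induction with
  | hadd X Y hX hY => rw [map_add, map_add, hX, hY, add_zero]
  | hx m x => rw [neg0_xm]; split_ifs <;> simp [chi_xm]
  | hc a => rw [map_smul, neg0_cc, smul_zero, map_zero]

/-! ### The negative part plus `K c` -/

/-- projection to `t⁻¹ L[t⁻¹] ⊕ K c` -/
def negc (X : Aff B) : Aff B := neg0 X + chi B X • cc B

theorem negc_add (X Y : Aff B) : negc (X + Y) = negc X + negc Y := by
  rw [negc, negc, negc, map_add, map_add, add_smul]; abel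

theorem negc_smul (a : K) (X : Aff B) : negc (a • X) = a • negc X := by
  rw [negc, negc, map_smul, map_smul, smul_add, smul_eq_mul, mul_smul]

theorem negc_zero : negc (0 : Aff B) = 0 := by
  have := negc_smul (0 : K) (0 : Aff B)
  rwa [zero_smul, zero_smul] at this

theorem negc_cc : negc (cc B) = cc B := by rw [negc, neg0_cc, chi_cc, zero_add, one_smul]

theorem negc_xm (m : ℤ) (x : L) : negc (xmL B m x) = if m < 0 then xmL B m x else 0 := by
  rw [negc, neg0_xm, chi_xm, zero_smul, add_zero]

theorem neg0_negc (X : Aff B) : neg0 (negc X) = neg0 X := by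
  rw [negc, map_add, map_smul, neg0_neg0, neg0_cc, smul_zero, add_zero]

theorem chi_negc (X : Aff B) : chi B (negc X) = chi B X := by
  rw [negc, map_add, map_smul, chi_neg0, chi_cc, zero_add, smul_eq_mul, mul_one]

theorem negc_negc (X : Aff B) : negc (negc X) = negc X := by
  rw [negc, neg0_negc, chi_negc, negc]

theorem lie_negc (X Y : Aff B) : ⁅negc X, negc Y⁆ = ⁅neg0 X, neg0 Y⁆ := by
  rw [negc, negc, add_lie, lie_add, lie_add, smul_lie, smul_lie, cc_lie, cc_lie, lie_smul, lie_cc]
  simp

theorem negc_lie (X Y : Aff B) : negc ⁅negc X, negc Y⁆ = ⁅negc X, negc Y⁆ := by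
  rw [lie_negc, negc, neg0_lie, ← neg0_lie X Y, chi_neg0, zero_smul, add_zero]

variable (B) in
/-- The Lie subalgebra `t⁻¹ L[t⁻¹] ⊕ K c`. -/
def negcAlg : LieSubalgebra K (Aff B) where
  carrier := {X | negc X = X}
  add_mem' {X Y} hX hY := by
    change negc (X + Y) = X + Y
    rw [negc_add, hX, hY]
  zero_mem' := negc_zero
  smul_mem' c X hX := by
    change negc (c • X) = c • X
    rw [negc_smul, hX]
  lie_mem' {X Y} hX hY := by
    change negc ⁅X, Y⁆ = ⁅X, Y⁆
    have := negc_lie X Y
    have hX' : negc X = X := hX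
    have hY' : negc Y = Y := hY
    rwa [hX', hY'] at this

theorem mem_negcAlg (X : Aff B) : X ∈ negcAlg B ↔ negc X = X := Iff.rfl

/-- The projection `ĝ → t⁻¹ L[t⁻¹] ⊕ K c`. -/
def negcProj : Aff B →ₗ[K] negcAlg B where
  toFun X := ⟨negc X, negc_negc X⟩
  map_add' X Y := Subtype.ext (negc_add X Y)
  map_smul' c X := Subtype.ext (negc_smul c X)

theorem negcProj_coe (X : Aff B) : ((negcProj X : negcAlg B) : Aff B) = negc X := rfl

theorem negcProj_of_mem (n : negcAlg B) : negcProj (n : Aff B) = n := Subtype.ext n.2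

theorem pos_lie (X Y : Aff B) : negc ⁅X - negc X, Y - negc Y⁆ = 0 := by
  induction X using Aff_induction with
  | hadd X X' hX hX' =>
    rw [negc_add, show X + X' - (negc X + negc X') = (X - negc X) + (X' - negc X') by abel,
      add_lie, negc_add, hX, hX', add_zero]
  | hc a => rw [negc_smul, negc_cc, sub_self, zero_lie, negc_zero]
  | hx m x =>
    induction Y using Aff_induction with
    | hadd Y Y' hY hY' =>
      rw [negc_add, show Y + Y' - (negc Y + negc Y') = (Y - negc Y) + (Y' - negc Y') by abel,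
        lie_add, negc_add, hY, hY', add_zero]
    | hc a => rw [negc_smul, negc_cc, sub_self, lie_zero, negc_zero]
    | hx n y =>
      rw [negc_xm, negc_xm]
      split_ifs with h1 h2
      · simp [negc_zero]
      · simp [negc_zero]
      · simp [negc_zero]
      · rw [sub_zero, sub_zero, lie_xm_xm, negc_add, negc_smul, negc_cc, negc_xm,
          if_neg (by omega), zero_add]
        split_ifs with h3
        · have : m = 0 := by omega
          subst this; simp
        · simp

/-- `c` in the subalgebra. -/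
def ccN : negcAlg B := ⟨cc B, negc_cc⟩

theorem exists_rho : ∃ ρ : Aff B →ₗ⁅K⁆ Module.End K (UniversalEnvelopingAlgebra K (negcAlg B)),
    (∀ (n : negcAlg B) u, ρ n u = ι K n * u) ∧
      ∀ (n : ℤ) (x : L), 0 ≤ n → ρ (xmL B n x) 1 = 0 := by
  obtain ⟨ρ, h1, h2⟩ := exists_induced (negcAlg B) negcProj negcProj_of_mem (0 : Aff B →ₗ[K] K)
    (fun n => rfl)
    (fun X Y => Subtype.ext (pos_lie X Y)) (fun X Y => rfl)
  refine ⟨ρ, h1, fun n x hn => ?_⟩
  have : (negcProj (xmL B n x) : (negcAlg B)) = 0 := Subtype.ext (by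
    rw [negcProj_coe, negc_xm, if_neg (by omega)]; rfl)
  rw [h2, this]; simp

/-- A `K[c]`-linear version of the PBW isomorphism. -/
theorem exists_psi : ∃ ψ : Vc B →ₗ[K] UniversalEnvelopingAlgebra K (negcAlg B),
    ψ (vacc B) = 1 ∧ ∀ (n : negcAlg B) v, ψ (actc B n v) = ι K n * ψ v := by
  obtain ⟨ρ, h1, h2⟩ := exists_rho (B := B)
  obtain ⟨ψ, h3, h4⟩ := Vc_lift ρ 1 h2
  exact ⟨ψ, h3, fun n v => by rw [h4, h1]⟩

/-! ### Induction along the negative part -/

inductive Gen : Vc B → Prop
  | vac : Gen (vacc B)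
  | add (v w : Vc B) : Gen v → Gen w → Gen (v + w)
  | smul (c : K) (v : Vc B) : Gen v → Gen (c • v)
  | cc (v : Vc B) : Gen v → Gen (actc B (cc B) v)
  | neg (m : ℤ) (x : L) (v : Vc B) : m < 0 → Gen v → Gen (actc B (xmL B m x) v)

theorem Gen.act {v : Vc B} (hv : Gen v) : ∀ X, Gen (actc B X v) := by
  induction hv with
  | vac =>
    intro X
    induction X using Aff_induction with
    | hadd X Y hX hY => rw [map_add, LinearMap.add_apply]; exact Gen.add _ _ hX hY
    | hc a => rw [map_smul, LinearMap.smul_apply]; exact .smul _ _ (.cc _ .vac)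
    | hx m x =>
      rcases lt_or_ge m 0 with h | h
      · exact .neg _ _ _ h .vac
      · rw [actc_xm_vac m h, ← zero_smul K (vacc B)]; exact .smul _ _ .vac
  | add v w _ _ hv hw => intro X; rw [map_add]; exact .add _ _ (hv X) (hw X)
  | smul c v _ hv => intro X; rw [map_smul]; exact .smul _ _ (hv X)
  | cc v hg hv =>
    intro X; rw [actc_comm, lie_cc, map_zero, LinearMap.zero_apply, zero_add]
    exact .cc _ (hv X)
  | neg m x v hm hg hv => intro X; rw [actc_comm]; exact .add _ _ (hv _) (.neg _ _ _ hm (hv X))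

theorem neg_induction {P : Vc B → Prop} (h0 : P (vacc B)) (hadd : ∀ v w, P v → P w → P (v + w))
    (hsmul : ∀ (c : K) v, P v → P (c • v)) (hcc : ∀ v, P v → P (actc B (cc B) v))
    (hneg : ∀ (m : ℤ) (x : L) v, m < 0 → P v → P (actc B (xmL B m x) v)) (v : Vc B) : P v := by
  have hg : Gen v := by
    induction v using Vc_induction with
    | h0 => exact .vac
    | hadd v w hv hw => exact .add _ _ hv hw
    | hsmul c v hv => exact .smul _ _ hv
    | hact X v hv => exact hv.act X
  induction hg with
  | vac => exact h0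
  | add v w _ _ hv hw => exact hadd _ _ hv hw
  | smul c v _ hv => exact hsmul _ _ hv
  | cc v _ hv => exact hcc _ hv
  | neg m x v hm _ hv => exact hneg _ _ _ hm hv

/-! ### `Vc` has no `(c - κ)`-torsion -/

theorem xm_mem_negc (m : ℤ) (hm : m < 0) (x : L) : xmL B m x ∈ negcAlg B := by
  rw [mem_negcAlg, negc_xm, if_pos hm]

theorem psi_injective {ψ : Vc B →ₗ[K] UniversalEnvelopingAlgebra K (negcAlg B)}
    (h0 : ψ (vacc B) = 1) (h : ∀ (n : negcAlg B) v, ψ (actc B n v) = ι K n * ψ v)
    (v : Vc B) (hv : ψ v = 0) : v = 0 := by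
  let inc : UniversalEnvelopingAlgebra K (negcAlg B) →ₐ[K] U B :=
    lift K ((ι K : Aff B →ₗ⁅K⁆ U B).comp (negcAlg B).incl)
  have hinc : ∀ n : negcAlg B, inc (ι K n) = ι K (n : Aff B) := fun n => by
    simp [inc]
  have key : ∀ v, inc (ψ v) • vacc B = v := by
    intro v
    induction v using neg_induction with
    | h0 => rw [h0, map_one, one_smul]
    | hadd v w hv hw => rw [map_add, map_add, add_smul, hv, hw]
    | hsmul c v hv => rw [map_smul, map_smul, smul_assoc, hv]
    | hcc v hv =>
      have h1 := h ccN v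
      rw [show ((ccN : negcAlg B) : Aff B) = cc B from rfl] at h1
      rw [h1, map_mul, hinc, mul_smul, hv]; rfl
    | hneg m x v hm hv =>
      have h1 := h ⟨xmL B m x, xm_mem_negc m hm x⟩ v
      rw [show (((⟨xmL B m x, xm_mem_negc m hm x⟩ : negcAlg B)) : Aff B) = xmL B m x from rfl] at h1
      rw [h1, map_mul, hinc, mul_smul, hv]; rfl
  rw [← key v, hv, map_zero, zero_smul]

/-- The map `U(𝔫 ⊕ K c) → U(𝔫)[c]` on generators. -/
def thetaN : negcAlg B →ₗ⁅K⁆ Polynomial (UniversalEnvelopingAlgebra K (negAlg B)) where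
  toFun X := Polynomial.C (ι K (negProj (X : Aff B))) + chi B (X : Aff B) • Polynomial.X
  map_add' X Y := by
    have e : ((X + Y : negcAlg B) : Aff B) = (X : Aff B) + (Y : Aff B) := rfl
    rw [e]
    simp only [map_add, add_smul]; abel
  map_smul' c X := by
    have e : ((c • X : negcAlg B) : Aff B) = c • (X : Aff B) := rfl
    rw [e, RingHom.id_apply]
    simp only [map_smul, smul_add, smul_eq_mul, mul_smul, Polynomial.smul_C]
  map_lie' {X Y} := by
    have hX : negc (X : Aff B) = X := X.2
    have hY : negc (Y : Aff B) = Y := Y.2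
    have e : ((⁅X, Y⁆ : negcAlg B) : Aff B) = ⁅neg0 (X : Aff B), neg0 (Y : Aff B)⁆ := by
      rw [LieSubalgebra.coe_bracket, ← lie_negc, hX, hY]
    have e1 : chi B ((⁅X, Y⁆ : negcAlg B) : Aff B) = 0 := by
      rw [e, ← neg0_lie, chi_neg0]
    have e2 : (negProj ((⁅X, Y⁆ : negcAlg B) : Aff B) : negAlg B) =
        ⁅(negProj (X : Aff B) : negAlg B), (negProj (Y : Aff B) : negAlg B)⁆ := by
      apply Subtype.ext
      rw [negProj_coe, e, neg0_lie, LieSubalgebra.coe_bracket, negProj_coe, negProj_coe]
    rw [e1, e2, zero_smul, add_zero, LieHom.map_lie, LieRing.of_associative_ring_bracket,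
      LieRing.of_associative_ring_bracket, map_sub, map_mul, map_mul]
    simp only [add_mul, mul_add, smul_mul_assoc, mul_smul_comm, Polynomial.X_mul_C]
    module

theorem theta_injective (u : UniversalEnvelopingAlgebra K (negcAlg B))
    (hu : lift K (thetaN (B := B)) u = 0) : u = 0 := by
  let inc : negAlg B →ₗ⁅K⁆ UniversalEnvelopingAlgebra K (negcAlg B) :=
    { toFun := fun X => ι K (⟨(X : Aff B), by
        have hX : neg0 (X : Aff B) = X := X.2
        rw [mem_negcAlg, negc, hX, ← hX, chi_neg0, zero_smul, add_zero]⟩ : negcAlg B)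
      map_add' := fun X Y => by rw [← map_add]; rfl
      map_smul' := fun c X => by rw [RingHom.id_apply, ← map_smul]; rfl
      map_lie' := fun {X Y} => by rw [← LieHom.map_lie]; rfl }
  have hcomm : ∀ a : UniversalEnvelopingAlgebra K (negAlg B),
      Commute (lift K inc a) (ι K (ccN : negcAlg B)) := by
    intro a
    induction a using uea_induction with
    | h1 => rw [map_one]; exact Commute.one_left _
    | hadd a b ha hb => rw [map_add]; exact ha.add_left hb
    | hsmul c a ha => rw [map_smul]; exact ha.smul_left c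
    | hmul X a ha =>
      rw [map_mul]
      refine Commute.mul_left ?_ ha
      rw [lift_ι_apply]
      change _ * _ = _ * _
      rw [← sub_eq_zero, ← LieRing.of_associative_ring_bracket]
      change ⁅ι K (_ : negcAlg B), ι K (ccN : negcAlg B)⁆ = 0
      rw [← LieHom.map_lie]
      have : ⁅(⟨(X : Aff B), by
        have hX : neg0 (X : Aff B) = X := X.2
        rw [mem_negcAlg, negc, hX, ← hX, chi_neg0, zero_smul, add_zero]⟩ : negcAlg B), (ccN : negcAlg B)⁆ = 0 := by
        apply Subtype.ext
        rw [LieSubalgebra.coe_bracket]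
        exact lie_cc _
      rw [this, map_zero]
  let ξ : Polynomial (UniversalEnvelopingAlgebra K (negAlg B)) →ₐ[K]
      UniversalEnvelopingAlgebra K (negcAlg B) :=
    Polynomial.eval₂AlgHom (lift K inc) (ι K (ccN : negcAlg B)) hcomm
  have key : ξ.comp (lift K (thetaN (B := B))) = AlgHom.id K _ := by
    apply hom_ext
    ext X
    change ξ (lift K (thetaN (B := B)) (ι K X)) = ι K X
    rw [lift_ι_apply]
    change ξ (Polynomial.C (ι K (negProj (X : Aff B))) + chi B (X : Aff B) • Polynomial.X) = _
    rw [map_add, map_smul]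
    have e1 : ξ Polynomial.X = ι K (ccN : negcAlg B) := by
      change Polynomial.eval₂ _ _ _ = _
      rw [Polynomial.eval₂_X]
    have e2 : ∀ a, ξ (Polynomial.C a) = lift K inc a := by
      intro a
      change Polynomial.eval₂ _ _ _ = _
      rw [Polynomial.eval₂_C]; rfl
    rw [e1, e2, lift_ι_apply]
    change ι K (_ : negcAlg B) + _ = _
    rw [← map_smul, ← map_add]
    congr 1
    apply Subtype.ext
    have hX : negc (X : Aff B) = X := X.2
    exact hX
  have := congrArg (fun F => F u) key
  change ξ (lift K (thetaN (B := B)) u) = u at this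
  rw [← this, hu, map_zero]

theorem torsion_free (κ : K) (v : Vc B) (hv : actc B (cc B) v = κ • v) : v = 0 := by
  obtain ⟨ψ, h0, h⟩ := exists_psi (B := B)
  apply psi_injective h0 h
  apply theta_injective
  have h1 := h ccN v
  rw [show ((ccN : negcAlg B) : Aff B) = cc B from rfl, hv, map_smul] at h1
  have h2 := congrArg (lift K (thetaN (B := B))) h1
  rw [map_smul, map_mul, lift_ι_apply] at h2
  have e : thetaN (ccN : negcAlg B) = Polynomial.X := by
    change Polynomial.C (ι K (negProj (cc B))) + chi B (cc B) • Polynomial.X = _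
    have : (negProj (cc B) : negAlg B) = 0 := Subtype.ext (by rw [negProj_coe, neg0_cc]; rfl)
    rw [this, chi_cc, map_zero, map_zero, zero_add, one_smul]
  rw [e] at h2
  set q := lift K (thetaN (B := B)) (ψ v) with hq
  have h3 : (Polynomial.X - Polynomial.C (algebraMap K _ κ)) * q = 0 := by
    rw [sub_mul, ← h2, Polynomial.C_mul', algebraMap_smul, sub_self]
  exact ((Polynomial.monic_X_sub_C _).mul_right_eq_zero_iff).mp h3

end MP4bfeeaAll
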