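import Pool.Agent.Work.MP_4bfeea_al.All.Main

/-!
# MP_4bfeea_al : the centre of `V^κ` is not the `p`-centre
-/

noncomputable section

attribute [local instance 100] LieRing.ofAssociativeRing

namespace MP4bfeeaAll

open UniversalEnvelopingAlgebra

universe u v w

variable {K : Type u} [Field K]

section nosq

variable {A : Type w} [Ring A] [Algebra K A]

theorem two_ne_zero_char {p : ℕ} (hp : p.Prime) (hodd : p ≠ 2) [CharP K p] : (2 : K) ≠ 0 := by
  intro h
  have h' : ((2 : ℕ) : K) = 0 := by exact_mod_cast h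
  rw [CharP.cast_eq_zero_iff K p] at h'
  exact hodd ((Nat.prime_dvd_prime_iff_eq hp Nat.prime_two).mp h')

theorem mapC_gk {p : ℕ} (hp : p.Prime) (hodd : p ≠ 2) [CharP K p] (h : K) (Cas : A) :
    mapC Cas (gk h p) = Polynomial.C (Cas ^ p) - Polynomial.C Cas *
      Polynomial.map (algebraMap K A) ((4 * (Polynomial.X + Polynomial.C h)) ^ (p - 1)) := by
  have h2 := two_ne_zero_char (K := K) hp hodd
  have h4 : (4 : Polynomial (Polynomial K)) ≠ 0 := by
    have e : (4 : Polynomial (Polynomial K)) = Polynomial.C (Polynomial.C (4 : K)) := by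
      rw [map_ofNat, map_ofNat]
    rw [e, Ne, Polynomial.C_eq_zero, Polynomial.C_eq_zero]
    have : (4 : K) = 2 ^ 2 := by norm_num
    rw [this]; exact pow_ne_zero _ h2
  have ht : (4 * (Polynomial.X + Polynomial.C (Polynomial.C h)) : Polynomial (Polynomial K)) ≠ 0 :=
    mul_ne_zero h4 (Polynomial.monic_X_add_C _).ne_zero
  rw [gk, prod_char hp hodd _ _ ht, map_sub, map_mul, map_pow, map_pow, map_mul, map_add, mapC_X,
    mapC_CX, mapC_CC, map_ofNat, ← Polynomial.C_pow]
  congr 1
  have e : (4 * (Polynomial.X + Polynomial.C (algebraMap K A h)) : Polynomial A) ^ (p - 1) =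
      Polynomial.map (algebraMap K A) ((4 * (Polynomial.X + Polynomial.C h)) ^ (p - 1)) := by
    rw [Polynomial.map_pow, Polynomial.map_mul, Polynomial.map_add, Polynomial.map_X,
      Polynomial.map_C, Polynomial.map_ofNat]
  rw [e]
  generalize ((4 * (Polynomial.X + Polynomial.C h)) ^ (p - 1) : Polynomial K) = f
  induction f using Polynomial.induction_on' with
  | add p q hp hq => rw [Polynomial.map_add, add_mul, mul_add, hp, hq]
  | monomial n a =>
    rw [Polynomial.map_monomial, Polynomial.monomial_mul_C, Polynomial.C_mul_monomial,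
      Algebra.commutes]

theorem X_sub_comm (κ : K) (q : Polynomial A) :
    (Polynomial.X - Polynomial.C (algebraMap K A κ)) * q
      = q * (Polynomial.X - Polynomial.C (algebraMap K A κ)) := by
  rw [sub_mul, mul_sub, Polynomial.X_mul]
  congr 1
  exact Algebra.commutes κ q

theorem no_sq {p : ℕ} (hp : p.Prime) (hodd : p ≠ 2) [CharP K p] {h κ : K} (hκ : κ ≠ -h) {Cas : A}
    (hCas : Cas ≠ 0) (q : Polynomial A)
    (hq : mapC Cas (gk h p) = (Polynomial.X - Polynomial.C (algebraMap K A κ)) *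
      ((Polynomial.X - Polynomial.C (algebraMap K A κ)) * q)) : False := by
  rw [mapC_gk hp hodd] at hq
  have h1 := congrArg (fun f => (Polynomial.derivative f).eval (algebraMap K A κ)) hq
  simp only [map_sub, Polynomial.derivative_C, zero_sub, Polynomial.eval_neg,
    Polynomial.derivative_mul, zero_mul, zero_add, Polynomial.eval_C_mul,
    Polynomial.derivative_X, sub_zero, one_mul, Polynomial.eval_add] at h1
  rw [X_sub_comm κ q, X_sub_comm κ (q + _), Polynomial.eval_mul_X_sub_C,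
    Polynomial.eval_mul_X_sub_C, add_zero, Polynomial.derivative_map, Polynomial.eval_map,
    Polynomial.eval₂_at_apply, neg_eq_zero] at h1
  have h2 : (Polynomial.derivative ((4 * (Polynomial.X + Polynomial.C h)) ^ (p - 1))).eval κ ≠ (0 : K) := by
    have e4 : (4 : Polynomial K) = Polynomial.C (4 : K) := (map_ofNat Polynomial.C 4).symm
    rw [Polynomial.derivative_pow, e4]
    simp only [Polynomial.derivative_mul, Polynomial.derivative_C, zero_mul, zero_add,
      Polynomial.derivative_X, Polynomial.derivative_add, add_zero, mul_one, Polynomial.eval_mul,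
      Polynomial.eval_C, Polynomial.eval_pow, Polynomial.eval_add, Polynomial.eval_X]
    have h2 := two_ne_zero_char (K := K) hp hodd
    have h4 : (4 : K) ≠ 0 := by
      have : (4 : K) = 2 ^ 2 := by norm_num
      rw [this]; exact pow_ne_zero _ h2
    refine mul_ne_zero (mul_ne_zero ?_ (pow_ne_zero _ (mul_ne_zero h4 ?_))) h4
    · have : ((p - 1 : ℕ) : K) = -1 := by
        have h3 := CharP.cast_eq_zero K p
        rw [Nat.cast_sub hp.one_lt.le, h3]; simp
      rw [this]; exact neg_ne_zero.mpr one_ne_zero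
    · intro h0; exact hκ (eq_neg_of_add_eq_zero_left h0)
  apply hCas
  have h3 : IsUnit (algebraMap K A
      ((Polynomial.derivative ((4 * (Polynomial.X + Polynomial.C h)) ^ (p - 1))).eval κ)) :=
    (IsUnit.mk0 _ h2).map _
  exact (h3.mul_left_eq_zero).mp h1

end nosq

variable {L : Type v} [LieRing L] [LieAlgebra K L] {B : InvForm K L}

/-! ### A restricted representation with non-zero Casimir operator -/

variable (K L) in
/-- `x ↦ (F ↦ [ad x, F])` on `End(L)`. -/
def rr : L →ₗ[K] Module.End K (Module.End K L) where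
  toFun x := LinearMap.mulLeft K (LieAlgebra.ad K L x) - LinearMap.mulRight K (LieAlgebra.ad K L x)
  map_add' x y := by
    apply LinearMap.ext; intro F
    simp only [map_add, LinearMap.sub_apply, LinearMap.mulLeft_apply, LinearMap.mulRight_apply,
      LinearMap.add_apply]
    noncomm_ring
  map_smul' c x := by
    apply LinearMap.ext; intro F
    simp [smul_sub]

theorem rr_apply (x : L) (F : Module.End K L) :
    rr K L x F = LieAlgebra.ad K L x * F - F * LieAlgebra.ad K L x := rfl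

theorem rr_lie (x y : L) : rr K L ⁅x, y⁆ = rr K L x * rr K L y - rr K L y * rr K L x := by
  apply LinearMap.ext; intro F
  rw [rr_apply, LieHom.map_lie, LieRing.of_associative_ring_bracket]
  simp only [LinearMap.sub_apply, Module.End.mul_apply, rr_apply]
  noncomm_ring

theorem ad_pm {p : ℕ} {pm : L → L} (hpm : IsPMap p pm) (x : L) :
    LieAlgebra.ad K L (pm x) = LieAlgebra.ad K L x ^ p := by
  apply LinearMap.ext; intro z
  rw [Module.End.pow_apply, LieAlgebra.ad_apply, hpm x z]
  rfl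

theorem rr_pow {p : ℕ} (hp : p.Prime) (hodd : p ≠ 2) [CharP K p] {pm : L → L}
    (hpm : IsPMap p pm) (x : L) : rr K L x ^ p = rr K L (pm x) := by
  apply LinearMap.ext; intro F
  rw [Module.End.pow_apply, rr_apply, ad_pm hpm, ← ad_pow_char (K := K) hp hodd]
  rfl

theorem cas_ne_zero (h2 : (2 : K) ≠ 0) [Nontrivial L] (hcent : ∀ x : L, (∀ y : L, ⁅x, y⁆ = 0) → x = 0)
    {n : ℕ} {a b : Fin n → L}
    (hab : ∀ x : L, ∑ i, B.form x (a i) • b i = x) {h : K}
    (hh : ∀ x : L, ∑ i, ⁅a i, ⁅b i, x⁆⁆ = (2 * h) • x) :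
    ∑ i, rr K L (a i) * rr K L (b i) ≠ 0 := by
  intro hcon
  have key : ∀ u v w : L, (4 * h * B.form u w) • v + (2 : K) • ⁅⁅u, w⁆, v⁆ = 0 := by
    intro u v w
    let F : Module.End K L :=
      { toFun := fun z => B.form u z • v
        map_add' := fun z z' => by rw [B.add_right, add_smul]
        map_smul' := fun c z => by rw [B.smul_right, mul_smul]; rfl }
    have hF : ∀ z, F z = B.form u z • v := fun z => rfl
    have h1 := congrArg (fun G => G F w) hcon
    simp only [LinearMap.sum_apply, Module.End.mul_apply, rr_apply, LinearMap.sub_apply,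
      LieAlgebra.ad_apply, LinearMap.zero_apply, hF, lie_sub, lie_smul] at h1
    have e1 : ∑ i, B.form u w • ⁅a i, ⁅b i, v⁆⁆ = (2 * h * B.form u w) • v := by
      rw [← Finset.smul_sum, hh, smul_smul, mul_comm]
    have e2 : ∑ i, B.form u ⁅b i, w⁆ • ⁅a i, v⁆ = - ⁅⁅u, w⁆, v⁆ := by
      conv_rhs => rw [← dual_symm hab ⁅u, w⁆]
      rw [sum_lie, ← Finset.sum_neg_distrib]
      refine Finset.sum_congr rfl fun i _ => ?_
      rw [smul_lie, ← neg_smul, ← B.inv, ← lie_skew, B.neg_left, B.inv, B.symm]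
    have e3 : ∑ i, B.form u ⁅a i, w⁆ • ⁅b i, v⁆ = - ⁅⁅u, w⁆, v⁆ := by
      conv_rhs => rw [← hab ⁅u, w⁆]
      rw [sum_lie, ← Finset.sum_neg_distrib]
      refine Finset.sum_congr rfl fun i _ => ?_
      rw [smul_lie, ← neg_smul, ← B.inv, ← lie_skew, B.neg_left, B.inv, B.symm]
    have e4 : ∑ i, B.form u ⁅b i, ⁅a i, w⁆⁆ • v = (2 * h * B.form u w) • v := by
      have h3 := tens_symm hab
        (LinearMap.mk₂ K (fun s t : L => B.form u ⁅s, ⁅t, w⁆⁆) (fun s s' t => by
          rw [add_lie, B.add_right])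
          (fun c s t => by rw [smul_lie, B.smul_right, smul_eq_mul])
          (fun s t t' => by rw [add_lie, lie_add, B.add_right])
          (fun c s t => by rw [smul_lie, lie_smul, B.smul_right, smul_eq_mul]))
      simp only [LinearMap.mk₂_apply] at h3
      rw [← Finset.sum_smul, ← h3]
      have h4 : ∑ i, B.form u ⁅a i, ⁅b i, w⁆⁆ = B.form u (∑ i, ⁅a i, ⁅b i, w⁆⁆) := by
        have := map_sum (formL B u) (fun i => ⁅a i, ⁅b i, w⁆⁆) Finset.univ
        exact this.symm
      rw [h4, hh, B.smul_right]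
    rw [Finset.sum_sub_distrib, Finset.sum_sub_distrib, Finset.sum_sub_distrib, e1, e2, e3, e4] at h1
    rw [← h1]
    module
  have key2 : ∀ u v w : L, ⁅⁅u, w⁆, v⁆ = 0 := by
    intro u v w
    have h3 := key u v w
    have h4 := key w v u
    rw [B.symm w u, ← lie_skew w u, neg_lie] at h4
    have h5 : (2 : K) • ((2 : K) • ⁅⁅u, w⁆, v⁆) = 0 := by
      have : (2 : K) • ((2 : K) • ⁅⁅u, w⁆, v⁆) =
        ((4 * h * B.form u w) • v + (2 : K) • ⁅⁅u, w⁆, v⁆) -
          ((4 * h * B.form u w) • v + (2 : K) • -⁅⁅u, w⁆, v⁆) := by module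
      rw [this, h3, h4, sub_zero]
    exact (smul_eq_zero.mp ((smul_eq_zero.mp h5).resolve_left h2)).resolve_left h2
  obtain ⟨x, hx⟩ := exists_ne (0 : L)
  exact hx (hcent x fun w => hcent _ fun v => key2 x v w)

/-! ### The generators of `𝒵₀'` -/

theorem ad_iter (n m : ℤ) (x w : L) (a : K) (k : ℕ) :
    (fun Y => ⁅xmL B n x, Y⁆)^[k + 1] (xmL B m ⁅x, w⁆ + a • cc B) =
      xmL B (m + (k + 1) * n) ((fun z => ⁅x, z⁆)^[k + 1] ⁅x, w⁆) := by
  induction k with
  | zero =>
    simp only [zero_add, Function.iterate_one, lie_add, lie_smul, lie_cc, smul_zero, add_zero]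
    rw [lie_xm_xm, B.self_lie]
    simp [add_comm]
  | succ k ih =>
    rw [Function.iterate_succ_apply', ih, Function.iterate_succ_apply' (fun z => ⁅x, z⁆) (k + 1)]
    rw [lie_xm_xm]
    have : B.form x ((fun z => ⁅x, z⁆)^[k + 1] ⁅x, w⁆) = 0 := by
      rw [Function.iterate_succ_apply']; exact B.self_lie _ _
    rw [this]
    simp only [mul_zero, ite_self, zero_smul, add_zero]
    congr 1
    congr 1
    push_cast; ring

theorem ad_pow_xm {p : ℕ} (hp : p.Prime) (hodd : p ≠ 2) [CharP K p] {pm : L → L}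
    (hpm : IsPMap p pm) (n : ℤ) (x : L) (Y : Aff B) :
    (fun Y => ⁅xmL B n x, Y⁆)^[p] Y = ⁅xmL B (n * p) (pm x), Y⁆ := by
  have hadd : ∀ k (Y Z : Aff B), (fun Y => ⁅xmL B n x, Y⁆)^[k] (Y + Z) =
      (fun Y => ⁅xmL B n x, Y⁆)^[k] Y + (fun Y => ⁅xmL B n x, Y⁆)^[k] Z := by
    intro k
    induction k with
    | zero => intro Y Z; rfl
    | succ k ih =>
      intro Y Z
      rw [Function.iterate_succ_apply, Function.iterate_succ_apply, Function.iterate_succ_apply,
        ← ih, lie_add]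
  have hzero : ∀ k, (fun Y => ⁅xmL B n x, Y⁆)^[k] (0 : Aff B) = 0 := by
    intro k
    induction k with
    | zero => rfl
    | succ k ih => rw [Function.iterate_succ_apply, lie_zero, ih]
  have h3 : 3 ≤ p := by have := hp.two_le; omega
  obtain ⟨k, rfl⟩ : ∃ k, p = k + 1 + 1 := ⟨p - 2, by omega⟩
  induction Y using Aff_induction with
  | hadd Y Z hY hZ => rw [hadd, hY, hZ, lie_add]
  | hc a => rw [lie_smul, lie_cc, smul_zero, Function.iterate_succ_apply, lie_smul, lie_cc,
      smul_zero, hzero]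
  | hx m z =>
    rw [Function.iterate_succ_apply, lie_xm_xm, ad_iter, lie_xm_xm]
    have e1 : (((n * ((k + 1 + 1 : ℕ) : ℤ) : ℤ)) : K) = 0 := by
      rw [Int.cast_mul, Int.cast_natCast, CharP.cast_eq_zero, mul_zero]
    rw [e1, zero_mul, ite_self, zero_smul, add_zero, ← Function.iterate_succ_apply (fun z => ⁅x, z⁆),
      ← hpm x z]
    congr 1
    congr 1
    push_cast; ring

theorem gen_commute {p : ℕ} (hp : p.Prime) (hodd : p ≠ 2) [CharP K p] {pm : L → L}
    (hpm : IsPMap p pm) (n : ℤ) (x : L) (Y : Aff B) :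
    ((ι K (xmL B n x) : U B) ^ p - ι K (xmL B (n * p) (pm x))) * ι K Y =
      ι K Y * ((ι K (xmL B n x) : U B) ^ p - ι K (xmL B (n * p) (pm x))) := by
  have h1 : ∀ k (Y : Aff B),
      (fun t : U B => ι K (xmL B n x) * t - t * ι K (xmL B n x))^[k] (ι K Y) =
      ι K ((fun Y => ⁅xmL B n x, Y⁆)^[k] Y) := by
    intro k
    induction k with
    | zero => intro Y; rfl
    | succ k ih =>
      intro Y
      rw [Function.iterate_succ_apply, Function.iterate_succ_apply, ← ih, LieHom.map_lie,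
        LieRing.of_associative_ring_bracket]
  have h2 := h1 p Y
  rw [ad_pow_xm hp hodd hpm n x, ad_pow_char (K := K) hp hodd, LieHom.map_lie,
    LieRing.of_associative_ring_bracket] at h2
  rw [sub_mul, mul_sub]
  exact sub_eq_sub_iff_sub_eq_sub.mp h2

theorem Z0_commute {p : ℕ} (hp : p.Prime) (hodd : p ≠ 2) [CharP K p] {pm : L → L}
    (hpm : IsPMap p pm) (z : U B) (hz : z ∈ Z0 B p pm) (Y : Aff B) : z * ι K Y = ι K Y * z := by
  unfold Z0 at hz
  induction hz using Algebra.adjoin_induction with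
  | mem z hz =>
    obtain ⟨n, x, rfl⟩ := hz
    exact gen_commute hp hodd hpm n x Y
  | algebraMap r => exact Algebra.commutes r _
  | add a b _ _ ha hb => rw [add_mul, mul_add, ha, hb]
  | mul a b _ _ ha hb => rw [mul_assoc, hb, ← mul_assoc, ha, mul_assoc]

theorem iota_pow_smul_vac {p : ℕ} (hp : p.Prime) (n : ℤ) (hn : 0 ≤ n) (x : L) :
    ((ι K (xmL B n x) : U B) ^ p) • vacc B = 0 := by
  obtain ⟨k, rfl⟩ : ∃ k, p = k + 1 := ⟨p - 1, by have := hp.pos; omega⟩
  rw [pow_succ, mul_smul, ← actc_apply, actc_xm_vac n hn, smul_zero]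

theorem gen_pos {p : ℕ} (hp : p.Prime) (hodd : p ≠ 2) [CharP K p] {pm : L → L}
    (hpm : IsPMap p pm) (n : ℤ) (hn : 0 ≤ n) (x : L) (v : Vc B) :
    ((ι K (xmL B n x) : U B) ^ p - ι K (xmL B (n * p) (pm x))) • v = 0 := by
  induction v using Vc_induction with
  | h0 =>
    rw [sub_smul, iota_pow_smul_vac hp n hn, ← actc_apply, actc_xm_vac _ (by positivity), sub_zero]
  | hadd v w hv hw => rw [smul_add, hv, hw, add_zero]
  | hsmul c v hv => rw [smul_comm, hv, smul_zero]
  | hact X v hv =>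
    rw [actc_apply, ← mul_smul, gen_commute hp hodd hpm n x, mul_smul, hv, smul_zero]

section evalZ

variable {A : Type w} [Ring A] [Algebra K A] {r : L →ₗ[K] A}

theorem phi_gen {p : ℕ} (hp : p.Prime) {pm : L → L} (hr : ∀ x, r x ^ p = r (pm x))
    {φ : Vc B →ₗ[K] Polynomial (Polynomial A)}
    (hφ : ∀ (m : ℤ) (x : L) (v : Vc B), m < 0 →
      φ (actc B (xmL B m x) v) = mon r m.natAbs x * φ v)
    (n : ℤ) (hn : n < 0) (x : L) (v : Vc B) :
    φ (((ι K (xmL B n x) : U B) ^ p - ι K (xmL B (n * p) (pm x))) • v) = 0 := by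
  have h1 : ∀ k v, φ (((ι K (xmL B n x) : U B) ^ k) • v) = (mon r n.natAbs x) ^ k * φ v := by
    intro k
    induction k with
    | zero => intro v; simp
    | succ k ih =>
      intro v; rw [pow_succ, mul_smul, ih, ← actc_apply, hφ _ _ _ hn, pow_succ, mul_assoc]
  have hp0 : (0 : ℤ) < p := by exact_mod_cast hp.pos
  rw [sub_smul, map_sub, h1, ← actc_apply, hφ _ _ _ (mul_neg_of_neg_of_pos hn hp0), mon_apply,
    mon_apply, Polynomial.monomial_pow, ← Polynomial.C_pow, hr, Int.natAbs_mul, Int.natAbs_natCast]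
  exact sub_self _

theorem phi_Z0 {p : ℕ} (hp : p.Prime) (hodd : p ≠ 2) [CharP K p] {pm : L → L}
    (hpm : IsPMap p pm) (hr : ∀ x, r x ^ p = r (pm x))
    {φ : Vc B →ₗ[K] Polynomial (Polynomial A)}
    (hφ : ∀ (m : ℤ) (x : L) (v : Vc B), m < 0 →
      φ (actc B (xmL B m x) v) = mon r m.natAbs x * φ v)
    (z : U B) (hz : z ∈ Z0 B p pm) : ∃ c : K, ∀ v, φ (z • v) = c • φ v := by
  unfold Z0 at hz
  induction hz using Algebra.adjoin_induction with
  | mem z hz =>
    obtain ⟨n, x, rfl⟩ := hz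
    refine ⟨0, fun v => ?_⟩
    rw [zero_smul]
    change φ (((ι K (xmL B n x) : U B) ^ p - ι K (xmL B (n * p) (pm x))) • v) = 0
    rcases lt_or_ge n 0 with hn | hn
    · exact phi_gen hp hr hφ n hn x v
    · rw [gen_pos hp hodd hpm n hn x, map_zero]
  | algebraMap r => exact ⟨r, fun v => by rw [algebraMap_smul, map_smul]⟩
  | add a b _ _ ha hb =>
    obtain ⟨c, hc⟩ := ha
    obtain ⟨d, hd⟩ := hb
    exact ⟨c + d, fun v => by rw [add_smul, map_add, hc, hd, add_smul]⟩
  | mul a b _ _ ha hb =>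
    obtain ⟨c, hc⟩ := ha
    obtain ⟨d, hd⟩ := hb
    exact ⟨c * d, fun v => by rw [mul_smul, hc, hd, mul_smul]⟩

end evalZ

/-! ### The central vector -/

theorem exists_central [Nontrivial L] {p : ℕ} (hp : p.Prime) (hodd : p ≠ 2) [CharP K p]
    {pm : L → L} (hpm : IsPMap p pm) (hcent : ∀ x : L, (∀ y : L, ⁅x, y⁆ = 0) → x = 0)
    {h : K} (hh : IsDualCoxeter B h) {κ : K} (hκ : κ ≠ -h) :
    ∃ v : V B κ, (∀ (n : ℤ) (x : L), 0 ≤ n → act B (xm B n x) v = 0) ∧ v ∉ pCentre B p pm κ := by
  obtain ⟨N, a, b, hab, hcas⟩ := hh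
  have h2 := two_ne_zero_char (K := K) hp hodd
  by_contra hcon
  push Not at hcon
  obtain ⟨T, hT0, hT⟩ := exists_Lop h2 hab hcas
  obtain ⟨pr, hpr0, hpr⟩ := exists_proj (B := B) κ
  obtain ⟨φ, hφ0, hφ, hφc⟩ := exists_phi (B := B) (rr K L) rr_lie
  have hr : ∀ x, rr K L x ^ p = rr K L (pm x) := rr_pow hp hodd hpm
  have pract : ∀ X (v : Vc B), pr (actc B X v) = act B X (pr v) := fun X v => pr.map_smul _ v
  -- every vector of `Vc` killed by the non-negative part lies in `Z0 |0⟩ + (c - κ) Vc`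
  have step : ∀ u : Vc B, (∀ (n : ℤ) (x : L), 0 ≤ n → actc B (xmL B n x) u = 0) →
      ∃ z ∈ Z0 B p pm, ∃ w : Vc B, u = z • vacc B + (cL B w - κ • w) ∧
        ∀ (n : ℤ) (x : L), 0 ≤ n → actc B (xmL B n x) w = 0 := by
    intro u hu
    obtain ⟨z, hz, hz2⟩ := hcon (pr u) (fun n x hn => by
      rw [← xmL_apply, ← pract, hu n x hn, map_zero])
    have h3 : pr (u - z • vacc B) = 0 := by
      rw [map_sub, map_smul, hpr0, hz2, sub_self]
    obtain ⟨w, hw⟩ := hpr _ h3
    refine ⟨z, hz, w, by rw [← hw]; abel, ?_⟩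
    intro n x hn
    apply torsion_free κ
    have h5 : actc B (xmL B n x) (z • vacc B) = 0 := by
      rw [actc_apply, ← mul_smul, ← Z0_commute hp hodd hpm z hz, mul_smul, ← actc_apply,
        actc_xm_vac n hn, smul_zero]
    have h4 := congrArg (actc B (xmL B n x)) hw
    rw [map_sub, map_sub, hu n x hn, h5, sub_zero, ← cL_comm, map_smul] at h4
    exact (sub_eq_zero.mp h4.symm)
  obtain ⟨z1, hz1, w1, hw1, hw1'⟩ := step ((T ^ p : Module.End K (Vc B)) (vacc B)) (by
    intro n x hn
    rw [← T_pow_act hp hodd hT, actc_xm_vac n hn, map_zero])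
  obtain ⟨z2, hz2, w2, hw2, hw2'⟩ := step w1 hw1'
  obtain ⟨c1, hc1⟩ := phi_Z0 hp hodd hpm hr hφ z1 hz1
  obtain ⟨c2, hc2⟩ := phi_Z0 hp hodd hpm hr hφ z2 hz2
  have hiter : ∀ k, φ ((T ^ k : Module.End K (Vc B)) (vacc B)) =
      (Dop h (∑ i, rr K L (a i) * rr K L (b i)))^[k] 1 := by
    intro k
    induction k with
    | zero => simpa using hφ0
    | succ k ih =>
      rw [pow_succ', Module.End.mul_apply, Function.iterate_succ_apply', ← ih,
        phi_T (rr K L) hT0 hT hφ0 hφ hφc]
  have hκφ : ∀ w, φ (cL B w - κ • w) =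
      Polynomial.C (Polynomial.X - Polynomial.C (algebraMap K _ κ)) * φ w := by
    intro w
    rw [map_sub, hφc, map_smul, Polynomial.C_sub, sub_mul, cP, Algebra.smul_def]
    rfl
  have h5 := hiter p
  rw [Dop_iter, hw1, map_add, hc1, hφ0, hκφ, hw2, map_add, hc2, hφ0, hκφ] at h5
  have h6 := congrArg (fun g => Polynomial.coeff g (2 * p)) h5
  have hp0 : 2 * p ≠ 0 := by have := hp.pos; omega
  simp only [Polynomial.coeff_add, Polynomial.coeff_smul, Polynomial.coeff_one, hp0, if_false,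
    smul_zero, zero_add, Polynomial.coeff_C_mul, Polynomial.coeff_monomial, if_true] at h6
  exact no_sq hp hodd hκ (cas_ne_zero h2 hcent hab hcas) _ h6.symm

/-! ### The centre of the vertex algebra -/

theorem act_cc {κ : K} (v : V B κ) : actL B κ (cc B) v = κ • v := by
  induction v using V_induction with
  | h0 => exact act_cc_vac
  | hadd v w hv hw => rw [map_add, hv, hw, smul_add]
  | hsmul c v hv => rw [map_smul, hv, smul_comm]
  | hact X v hv =>
    have := act_lie (κ := κ) (cc B) X v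
    rw [cc_lie, map_zero, LinearMap.zero_apply] at this
    rw [sub_eq_zero.mp this.symm, hv, map_smul]

theorem act_mem_centre {κ : K} {A : VertexAlgebra K (V B κ)} (hA : IsAffine A) {v : V B κ}
    (hv : ∀ (n : ℤ) (x : L), 0 ≤ n → actL B κ (xmL B n x) v = 0) : v ∈ A.centre := by
  have hprod : ∀ (x : L) (n : ℤ) (v : V B κ),
      A.prod n (actL B κ (xmL B (-1) x) (vac B κ)) v = actL B κ (xmL B n x) v := hA.2
  intro a
  induction a using V_induction with
  | h0 =>
    intro n hn
    rw [← hA.1, A.vac_prod, if_neg (by omega)]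
  | hadd a b ha hb =>
    intro n hn
    rw [map_add, LinearMap.add_apply, ha n hn, hb n hn, add_zero]
  | hsmul c a ha =>
    intro n hn
    rw [map_smul, LinearMap.smul_apply, ha n hn, smul_zero]
  | hact X a ha =>
    induction X using Aff_induction with
    | hadd X Y hX hY =>
      intro n hn
      rw [map_add, LinearMap.add_apply, map_add, LinearMap.add_apply, hX n hn, hY n hn, add_zero]
    | hc t =>
      intro n hn
      rw [map_smul, LinearMap.smul_apply, act_cc, map_smul, map_smul, LinearMap.smul_apply,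
        LinearMap.smul_apply, ha n hn, smul_zero, smul_zero]
    | hx k x =>
      intro n hn
      have h := A.borcherds (actL B κ (xmL B (-1) x) (vac B κ)) a v n 0 k
      rw [finsum_eq_single _ 0, finsum_eq_zero_of_forall_eq_zero] at h
      · simpa [Ring.choose_zero_right, hprod] using h
      · intro j
        rw [ha (n + j) (by positivity), map_zero, hprod x (0 + (j : ℤ)) v,
          hv (0 + j) x (by positivity), map_zero, smul_zero, sub_zero, smul_zero]
      · intro j hj
        rw [Ring.choose_zero_pos _ (Nat.pos_of_ne_zero hj), zero_smul]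

theorem pCentre_invariant {p : ℕ} (hp : p.Prime) (hodd : p ≠ 2) [CharP K p] {pm : L → L}
    (hpm : IsPMap p pm) {κ : K} {v : V B κ} (hv : v ∈ pCentre B p pm κ) (n : ℤ) (x : L)
    (hn : 0 ≤ n) : actL B κ (xmL B n x) v = 0 := by
  obtain ⟨z, hz, rfl⟩ := hv
  rw [act_apply, ← mul_smul, ← Z0_commute hp hodd hpm z hz, mul_smul, ← act_apply,
    act_xm_vac n hn, smul_zero]

theorem pCentre_lt_centre [Nontrivial L] {p : ℕ} (hp : p.Prime) (hodd : p ≠ 2) [CharP K p]
    {pm : L → L} (hpm : IsPMap p pm) (hcent : ∀ x : L, (∀ y : L, ⁅x, y⁆ = 0) → x = 0)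
    {h : K} (hh : IsDualCoxeter B h) {κ : K} (hκ : κ ≠ -h)
    {A : VertexAlgebra K (V B κ)} (hA : IsAffine A) : pCentre B p pm κ ⊂ A.centre := by
  rw [Set.ssubset_iff_exists]
  obtain ⟨v, hv, hv'⟩ := exists_central hp hodd hpm hcent hh hκ
  exact ⟨fun w hw => act_mem_centre hA (fun n x hn => pCentre_invariant hp hodd hpm hw n x hn),
    v, act_mem_centre hA hv, hv'⟩

end MP4bfeeaAll
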