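import Pool.Agent.Work.MP_4bfeea_al.All.Basic

/-!
# MP_4bfeea_al : the induced module `U(𝔫)` (a substitute for the PBW theorem)
-/

noncomputable section

attribute [local instance 100] LieRing.ofAssociativeRing

namespace MP4bfeeaAll

open UniversalEnvelopingAlgebra

universe u v

variable {R : Type u} {L : Type v} [CommRing R] [LieRing L] [LieAlgebra R L]

/-- the action of `𝔫` on `Hom(L, U(𝔫))`. -/
def nAct (N : LieSubalgebra R L) :
    N →ₗ⁅R⁆ Module.End R (L →ₗ[R] UniversalEnvelopingAlgebra R N) where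
  toFun n :=
    { toFun := fun F =>
        { toFun := fun g => ι R n * F g + F ⁅g, (n : L)⁆
          map_add' := fun g g' => by simp only [map_add, mul_add, add_lie]; abel
          map_smul' := fun c g => by simp [smul_add] }
      map_add' := fun F G => LinearMap.ext fun g => by
        simp only [LinearMap.coe_mk, AddHom.coe_mk, LinearMap.add_apply, mul_add]; abel
      map_smul' := fun c F => LinearMap.ext fun g => by simp [smul_add] }
  map_add' n m := LinearMap.ext fun F => LinearMap.ext fun g => by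
    have e : ⁅g, ((n + m : N) : L)⁆ = ⁅g, (n : L)⁆ + ⁅g, (m : L)⁆ := lie_add g (n : L) (m : L)
    simp only [LinearMap.coe_mk, AddHom.coe_mk, LinearMap.add_apply, map_add, add_mul, e]; abel
  map_smul' c n := LinearMap.ext fun F => LinearMap.ext fun g => by
    simp [smul_add]
  map_lie' {n m} := LinearMap.ext fun F => LinearMap.ext fun g => by
    simp only [LinearMap.coe_mk, AddHom.coe_mk, LieHom.map_lie,
      LieSubalgebra.coe_bracket, LieRing.of_associative_ring_bracket, LinearMap.sub_apply,
      sub_mul, mul_add, Module.End.mul_apply, mul_assoc]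
    rw [leibniz_lie g (n : L) (m : L), map_add, ← lie_skew (n : L) ⁅g, (m : L)⁆, map_neg]
    abel

theorem exists_induced (N : LieSubalgebra R L)
    (π : L →ₗ[R] N) (hπ : ∀ n : N, π n = n) (χ : L →ₗ[R] R) (hχ : ∀ n : N, χ n = 0)
    (hb : ∀ g g' : L, π ⁅g - (π g : L), g' - (π g' : L)⁆ = 0)
    (hb' : ∀ g g' : L, χ ⁅g - (π g : L), g' - (π g' : L)⁆ = 0) :
    ∃ ρ : L →ₗ⁅R⁆ Module.End R (UniversalEnvelopingAlgebra R N),
      (∀ (n : N) u, ρ n u = ι R n * u) ∧ ∀ g, ρ g 1 = ι R (π g) + algebraMap R _ (χ g) := by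
  let F0 : L →ₗ[R] UniversalEnvelopingAlgebra R N :=
    ((ι R : N →ₗ⁅R⁆ UniversalEnvelopingAlgebra R N) : N →ₗ[R] UniversalEnvelopingAlgebra R N).comp π
      + (Algebra.linearMap R _).comp χ
  have hF0 : ∀ g, F0 g = ι R (π g) + algebraMap R _ (χ g) := fun g => rfl
  let T : UniversalEnvelopingAlgebra R N →ₗ[R] (L →ₗ[R] UniversalEnvelopingAlgebra R N) :=
    (LinearMap.applyₗ F0).comp (lift R (nAct N)).toLinearMap
  have hT : ∀ u, T u = lift R (nAct N) u F0 := fun u => rfl
  have hT1 : T 1 = F0 := by rw [hT, map_one]; rfl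
  have hT2 : ∀ (n : N) u g, T (ι R n * u) g = ι R n * T u g + T u ⁅g, (n : L)⁆ := by
    intro n u g
    rw [hT, map_mul, lift_ι_apply, Module.End.mul_apply, ← hT]; rfl
  have hT3 : ∀ u (n : N), T u (n : L) = ι R n * u := by
    intro u
    induction u using uea_induction with
    | h1 => intro n; rw [hT1, hF0, hπ, hχ, map_zero, add_zero, mul_one]
    | hadd a b ha hb => intro n; rw [map_add, LinearMap.add_apply, ha, hb, mul_add]
    | hsmul c a ha => intro n; rw [map_smul, LinearMap.smul_apply, ha, mul_smul_comm]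
    | hmul m a ha =>
      intro n
      rw [hT2, ha, ← LieSubalgebra.coe_bracket, ha, LieHom.map_lie,
        LieRing.of_associative_ring_bracket, sub_mul, mul_assoc, mul_assoc]
      abel
  have key1 : ∀ g g' : L, ι R (π ⁅g, g'⁆) + algebraMap R (UniversalEnvelopingAlgebra R N) (χ ⁅g, g'⁆)
      = ι R (π ⁅g, (π g' : L)⁆) - ι R (π ⁅g', (π g : L)⁆) - ι R ⁅π g, π g'⁆
        + (algebraMap R _ (χ ⁅g, (π g' : L)⁆) - algebraMap R _ (χ ⁅g', (π g : L)⁆)) := by
    intro g g'
    have e1 := hb g g'
    have e2 := hb' g g'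
    rw [sub_lie, lie_sub, lie_sub, map_sub, map_sub, map_sub] at e1 e2
    rw [← LieSubalgebra.coe_bracket, hπ] at e1
    rw [← LieSubalgebra.coe_bracket, hχ] at e2
    have e3 : π ⁅g, g'⁆ = π ⁅g, (π g' : L)⁆ - π ⁅g', (π g : L)⁆ - ⁅π g, π g'⁆ := by
      rw [← lie_skew g' (π g : L), map_neg]
      rw [← sub_eq_zero, ← e1]; abel
    have e4 : χ ⁅g, g'⁆ = χ ⁅g, (π g' : L)⁆ - χ ⁅g', (π g : L)⁆ := by
      rw [← lie_skew g' (π g : L), map_neg]
      rw [← sub_eq_zero, ← e2]; abel
    rw [e3, e4]
    simp only [map_sub]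
  have key : ∀ u (g g' : L), T u ⁅g, g'⁆ = T (T u g') g - T (T u g) g' := by
    intro u
    induction u using uea_induction with
    | h1 =>
      intro g g'
      rw [hT1, hF0, hF0, hF0, map_add, map_add, LinearMap.add_apply, LinearMap.add_apply]
      have a1 : ∀ (n : N) (g : L), T (ι R n) g = ι R n * (ι R (π g) + algebraMap R _ (χ g))
          + (ι R (π ⁅g, (n : L)⁆) + algebraMap R _ (χ ⁅g, (n : L)⁆)) := by
        intro n g
        have := hT2 n 1 g
        rw [mul_one, hT1, hF0, hF0] at this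
        exact this
      have a2 : ∀ (c : R) (g : L), T (algebraMap R _ c) g =
          algebraMap R _ c * (ι R (π g) + algebraMap R _ (χ g)) := by
        intro c g
        rw [Algebra.algebraMap_eq_smul_one, map_smul, LinearMap.smul_apply, hT1, hF0,
          smul_mul_assoc, one_mul]
      rw [a1, a1, a2, a2, key1, LieHom.map_lie, LieRing.of_associative_ring_bracket]
      have c1 : ∀ (c : R) (x : UniversalEnvelopingAlgebra R N), x * algebraMap R _ c
        = algebraMap R _ c * x := fun c x => (Algebra.commutes c x).symm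
      simp only [mul_add]
      rw [c1 (χ g) (ι R (π g')), c1 (χ g') (ι R (π g)), c1 (χ g) (algebraMap R _ (χ g'))]
      abel
    | hadd a b ha hb =>
      intro g g'
      simp only [map_add, LinearMap.add_apply, ha, hb]; abel
    | hsmul c a ha =>
      intro g g'
      simp only [map_smul, LinearMap.smul_apply, ha, smul_sub]
    | hmul n a ha =>
      intro g g'
      rw [hT2, lie_lie, map_sub, ha g ⁅g', (n : L)⁆, ha g' ⁅g, (n : L)⁆, ha g g', hT2, hT2, map_add,
        map_add, LinearMap.add_apply, LinearMap.add_apply, hT2, hT2, mul_sub]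
      abel
  refine ⟨{ T.flip with
    map_lie' := fun {g g'} => LinearMap.ext fun u => ?_ }, fun n u => hT3 u n, fun g => ?_⟩
  · rw [LieRing.of_associative_ring_bracket]
    exact key u g g'
  · change T 1 g = _
    rw [hT1, hF0]

end MP4bfeeaAll
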