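import Pool.Agent.Work.MP_4bfeea_al.All.Sug

/-!
# MP_4bfeea_al : a central vector outside the `p`-centre, at every non-critical level
-/

noncomputable section

attribute [local instance 100] LieRing.ofAssociativeRing

namespace MP4bfeeaAll

open UniversalEnvelopingAlgebra

universe u v w

section algebra

variable {K : Type u} [Field K]

theorem ad_pow_char {A : Type v} [Ring A] [Algebra K A] {p : ℕ} (hp : p.Prime) (hodd : p ≠ 2)
    [CharP K p] (a b : A) : (fun t => a * t - t * a)^[p] b = a ^ p * b - b * a ^ p := by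
  have hc0 : Commute (LinearMap.mulLeft K a : Module.End K A) (LinearMap.mulRight K a) :=
    LinearMap.ext fun t => (mul_assoc a t a).symm
  have hc : Commute (LinearMap.mulLeft K a : Module.End K A) (-LinearMap.mulRight K a) :=
    hc0.neg_right
  obtain ⟨r, hr⟩ := hc.exists_add_pow_prime_eq hp
  have hp0 : ((p : ℕ) : Module.End K A) = 0 := by
    have : ((p : ℕ) : Module.End K A) = algebraMap K (Module.End K A) (p : K) :=
      (map_natCast (algebraMap K (Module.End K A)) p).symm
    rw [this, CharP.cast_eq_zero, map_zero]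
  rw [hp0, zero_mul, zero_mul, zero_mul, add_zero, Odd.neg_pow (hp.odd_of_ne_two hodd),
    LinearMap.pow_mulLeft, LinearMap.pow_mulRight] at hr
  have h2 := congrArg (fun F => F b) hr
  simp only [Module.End.pow_apply, LinearMap.add_apply, LinearMap.neg_apply,
    LinearMap.mulLeft_apply, LinearMap.mulRight_apply] at h2
  rw [← sub_eq_add_neg] at h2
  rw [sub_eq_add_neg (a ^ p * b), ← h2]
  rfl

theorem natCast_pow_char {R : Type v} [CommRing R] {p : ℕ} (hp : p.Prime) [CharP R p] (j : ℕ) :
    (j : R) ^ p = j := by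
  have : Fact p.Prime := ⟨hp⟩
  have := map_natCast (frobenius R p) j
  rwa [frobenius_def] at this

/-- `∏_{j < p} (y + j t) = y^p - t^{p-1} y`. -/
theorem prod_char {R : Type v} [CommRing R] [IsDomain R] {p : ℕ} (hp : p.Prime) (hodd : p ≠ 2)
    [CharP R p] (y t : R) (ht : t ≠ 0) :
    ∏ j ∈ Finset.range p, (y + (j : R) * t) = y ^ p - t ^ (p - 1) * y := by
  classical
  let f : Polynomial R := ∏ j ∈ Finset.range p, (Polynomial.X + Polynomial.C ((j : R) * t))
  let g : Polynomial R := Polynomial.X ^ p - Polynomial.C (t ^ (p - 1)) * Polynomial.X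
  have h2p : 2 ≤ p := hp.two_le
  have hf : f.Monic := Polynomial.monic_prod_of_monic _ _ fun j _ => Polynomial.monic_X_add_C _
  have hfd : f.natDegree = p := by
    rw [Polynomial.natDegree_prod_of_monic _ _ fun j _ => Polynomial.monic_X_add_C _,
      Finset.sum_congr rfl fun j _ => Polynomial.natDegree_X_add_C _]
    simp
  have hlow : (Polynomial.C (t ^ (p - 1)) * Polynomial.X : Polynomial R).degree < (p : WithBot ℕ) := by
    refine lt_of_le_of_lt (Polynomial.degree_C_mul_X_le _) ?_
    exact_mod_cast (show 1 < p by omega)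
  have hg : g.Monic := Polynomial.monic_X_pow_sub (by
    refine lt_of_lt_of_le ?_ (le_refl _)
    exact hlow)
  have hgd : g.degree = p := by
    rw [Polynomial.degree_sub_eq_left_of_degree_lt] <;> rw [Polynomial.degree_X_pow]
    exact hlow
  have hfd' : f.degree = p := by
    rw [Polynomial.degree_eq_natDegree hf.ne_zero, hfd]
  have hlt : (f - g).degree < p := by
    have := Polynomial.degree_sub_lt_left (hfd'.trans hgd.symm) hf.ne_zero
      (by rw [hf.leadingCoeff, hg.leadingCoeff])
    rwa [hfd'] at this
  have hinj : Set.InjOn (fun j : ℕ => -((j : R) * t)) (Finset.range p : Set ℕ) := by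
    intro i hi j hj hij
    simp only [neg_inj] at hij
    have h3 := mul_right_cancel₀ ht hij
    have h4 := (CharP.natCast_eq_natCast R p).mp h3
    have hi' : i < p := by simpa using hi
    have hj' : j < p := by simpa using hj
    rwa [Nat.ModEq, Nat.mod_eq_of_lt hi', Nat.mod_eq_of_lt hj'] at h4
  have hfg : f = g := by
    refine Polynomial.eq_of_degree_sub_lt_of_eval_finset_eq
      ((Finset.range p).image fun j : ℕ => -((j : R) * t)) ?_ ?_
    · rw [Finset.card_image_of_injOn hinj, Finset.card_range]; exact hlt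
    · intro x hx
      rw [Finset.mem_image] at hx
      obtain ⟨j, hj, rfl⟩ := hx
      have e1 : f.eval (-((j : R) * t)) = 0 := by
        rw [Polynomial.eval_prod]
        exact Finset.prod_eq_zero hj (by simp)
      have e2 : g.eval (-((j : R) * t)) = 0 := by
        simp only [g, Polynomial.eval_sub, Polynomial.eval_pow, Polynomial.eval_X,
          Polynomial.eval_mul, Polynomial.eval_C]
        rw [Odd.neg_pow (hp.odd_of_ne_two hodd), mul_pow, natCast_pow_char hp]
        have : t ^ p = t ^ (p - 1) * t := by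
          rw [← pow_succ]; congr 1; omega
        rw [this]; ring
      rw [e1, e2]
  have := congrArg (Polynomial.eval y) hfg
  simpa [f, g, Polynomial.eval_prod] using this

end algebra

variable {K : Type u} [Field K] {L : Type v} [LieRing L] [LieAlgebra K L] {B : InvForm K L}

/-! ### `T^p` commutes with `ĝ` -/

theorem delta_iter (n : ℤ) (x : L) (k : ℕ) :
    delta^[k] (xmL B n x) =
      (∏ j ∈ Finset.range k, (-(2 * ((n : K) - 2 * (j : K))))) • xmL B (n - 2 * k) x := by
  induction k with
  | zero => simp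
  | succ k ih =>
    rw [Function.iterate_succ_apply', ih, map_smul, delta_xm, smul_smul, Finset.prod_range_succ]
    congr 2
    · push_cast; ring
    · congr 1; push_cast; ring

theorem exists_root {p : ℕ} (hp : p.Prime) (hodd : p ≠ 2) [CharP K p] (n : ℤ) :
    ∃ j < p, (n : K) - 2 * (j : K) = 0 := by
  obtain ⟨r, hr⟩ := hp.odd_of_ne_two hodd
  have hpos : (0 : ℤ) < p := by exact_mod_cast hp.pos
  refine ⟨((n * (r + 1)) % p).toNat, ?_, ?_⟩
  · have := Int.emod_lt_of_pos (n * (r + 1)) hpos
    have h0 := Int.emod_nonneg (n * (r + 1)) hpos.ne'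
    omega
  · have h0 := Int.emod_nonneg (n * (r + 1)) hpos.ne'
    have e1 : (((n * (r + 1)) % p).toNat : K) = (((n * (r + 1)) % p : ℤ) : K) := by
      rw [← Int.cast_natCast, Int.toNat_of_nonneg h0]
    have hpK : (p : K) = 0 := CharP.cast_eq_zero K p
    have e2 : (((n * (r + 1)) % p : ℤ) : K) = (n : K) * (r + 1) := by
      have h3 := Int.emod_add_mul_ediv (n * (r + 1)) p
      have h4 := congrArg (fun z : ℤ => (z : K)) h3
      push_cast at h4
      rw [hpK, zero_mul, add_zero] at h4
      exact h4
    have e3 : (2 : K) * (r + 1) = 1 := by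
      have : (2 : K) * r + 1 = 0 := by
        have := congrArg (fun z : ℕ => (z : K)) hr
        push_cast at this
        rw [← this, hpK]
      linear_combination this
    rw [e1, e2]
    linear_combination (-(n : K)) * e3

theorem delta_p {p : ℕ} (hp : p.Prime) (hodd : p ≠ 2) [CharP K p] (n : ℤ) (x : L) :
    delta^[p] (xmL B n x) = 0 := by
  obtain ⟨j, hj, hj0⟩ := exists_root (K := K) hp hodd n
  rw [delta_iter, Finset.prod_eq_zero (Finset.mem_range.mpr hj) (by rw [hj0, mul_zero, neg_zero]),
    zero_smul]

theorem T_pow_act {p : ℕ} (hp : p.Prime) (hodd : p ≠ 2) [CharP K p] {h : K}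
    {T : Vc B →ₗ[K] Vc B}
    (hT : ∀ X v, T (actc B X v) = actc B X (T v) + Eh h (actc B (delta X) v)) (n : ℤ) (x : L)
    (v : Vc B) : (T ^ p : Module.End K (Vc B)) (actc B (xmL B n x) v) =
      actc B (xmL B n x) ((T ^ p : Module.End K (Vc B)) v) := by
  let A : Aff B → Module.End K (Vc B) := fun X => actc B X
  let Te : Module.End K (Vc B) := T
  let Ee : Module.End K (Vc B) := Eh h
  have hcomm : Te * Ee = Ee * Te := by
    apply LinearMap.ext; intro v
    change T (Eh h v) = Eh h (T v)
    rw [Eh_apply, Eh_apply, map_add, map_smul, hT, delta_cc, map_zero, LinearMap.zero_apply,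
      map_zero, add_zero]
  have hcommk : ∀ k, Te * Ee ^ k = Ee ^ k * Te := fun k => (Commute.pow_right hcomm k)
  have h1 : ∀ k (X : Aff B), (fun t => Te * t - t * Te)^[k] (A X) = Ee ^ k * A (delta^[k] X) := by
    intro k
    induction k with
    | zero => intro X; simp
    | succ k ih =>
      intro X
      rw [Function.iterate_succ_apply', ih, Function.iterate_succ_apply']
      have e : ∀ Y, Te * A Y - A Y * Te = Ee * A (delta Y) := by
        intro Y
        apply LinearMap.ext; intro v
        change T (actc B Y v) - actc B Y (T v) = Eh h (actc B (delta Y) v)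
        rw [hT]; abel
      rw [← mul_assoc, hcommk, mul_assoc, mul_assoc, ← mul_sub, e, ← mul_assoc, ← pow_succ]
  have h2 := h1 p (xmL B n x)
  rw [delta_p hp hodd, ad_pow_char (K := K) hp hodd] at h2
  have h3 : A 0 = 0 := map_zero (actc B)
  rw [h3, mul_zero, sub_eq_zero] at h2
  exact congrArg (fun F => F v) h2

/-! ### The evaluation map -/

section eval

variable {A : Type w} [Ring A] [Algebra K A] (r : L →ₗ[K] A)

/-- `x ↦ r(x) X^n` -/
def mon (n : ℕ) : L →ₗ[K] Polynomial (Polynomial A) where
  toFun x := Polynomial.monomial n (Polynomial.C (r x))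
  map_add' x y := by rw [map_add, map_add, map_add]
  map_smul' c x := by
    rw [map_smul, RingHom.id_apply, Polynomial.smul_monomial, Polynomial.smul_C]

theorem mon_apply (n : ℕ) (x : L) :
    mon r n x = Polynomial.monomial n (Polynomial.C (r x)) := rfl

/-- The image of `c`. -/
def cP (A : Type w) [Ring A] : Polynomial (Polynomial A) := Polynomial.C Polynomial.X

theorem cP_comm (q : Polynomial (Polynomial A)) : cP A * q = q * cP A := by
  rw [cP]
  induction q using Polynomial.induction_on' with
  | add p q hp hq => rw [mul_add, add_mul, hp, hq]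
  | monomial n a =>
    rw [Polynomial.C_mul_monomial, Polynomial.monomial_mul_C]
    congr 1
    exact Polynomial.X_mul

variable (B) in
/-- the evaluation map on `ĝ`. -/
def ev0 : Aff B →ₗ[K] Polynomial (Polynomial A) :=
  affLift B (fun m => if m < 0 then mon r m.natAbs else 0) (cP A)

theorem ev0_xm (m : ℤ) (x : L) : ev0 B r (xmL B m x) = if m < 0 then mon r m.natAbs x else 0 := by
  rw [ev0, affLift_xm]; split_ifs <;> rfl

theorem ev0_cc : ev0 B r (cc B) = cP A := by rw [ev0, affLift_cc]

variable (hr : ∀ x y, r ⁅x, y⁆ = r x * r y - r y * r x)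

include hr in
theorem ev0_lie (X Y : Aff B) : ev0 B r ⁅neg0 X, neg0 Y⁆ =
    ev0 B r (neg0 X) * ev0 B r (neg0 Y) - ev0 B r (neg0 Y) * ev0 B r (neg0 X) := by
  induction X using Aff_induction with
  | hadd X X' hX hX' =>
    rw [map_add, add_lie, map_add, hX, hX', map_add, add_mul, mul_add]; abel
  | hc a => simp [neg0_cc]
  | hx m x =>
    induction Y using Aff_induction with
    | hadd Y Y' hY hY' =>
      rw [map_add, lie_add, map_add, hY, hY', map_add, add_mul, mul_add]; abel
    | hc a => simp [neg0_cc]
    | hx n y =>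
      rw [neg0_xm, neg0_xm]
      split_ifs with h1 h2
      · rw [lie_xm_xm, if_neg (by omega), zero_smul, add_zero, ev0_xm, ev0_xm, ev0_xm,
          if_pos (by omega), if_pos h1, if_pos h2,
          mon_apply, mon_apply, mon_apply, Polynomial.monomial_mul_monomial,
          Polynomial.monomial_mul_monomial, hr,
          show (m + n).natAbs = m.natAbs + n.natAbs by omega, add_comm n.natAbs, ← map_sub]
        simp only [map_sub, map_mul]
      · simp
      · simp
      · simp

theorem ev0_negc (X : Aff B) (hX : negc X = X) :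
    ev0 B r X = ev0 B r (neg0 X) + chi B X • cP A := by
  conv_lhs => rw [← hX, negc, map_add, map_smul, ev0_cc]

/-- the evaluation map as a Lie algebra homomorphism. -/
def evN : negcAlg B →ₗ⁅K⁆ Polynomial (Polynomial A) where
  toFun n := ev0 B r (n : Aff B)
  map_add' n m := map_add (ev0 B r) _ _
  map_smul' c n := map_smul (ev0 B r) _ _
  map_lie' {X Y} := by
    have hX : negc (X : Aff B) = X := X.2
    have hY : negc (Y : Aff B) = Y := Y.2
    have e : ((⁅X, Y⁆ : negcAlg B) : Aff B) = ⁅neg0 (X : Aff B), neg0 (Y : Aff B)⁆ := by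
      rw [LieSubalgebra.coe_bracket, ← lie_negc, hX, hY]
    rw [e, ev0_lie r hr, LieRing.of_associative_ring_bracket, ev0_negc r _ hX, ev0_negc r _ hY]
    simp only [mul_add, add_mul, smul_mul_assoc, mul_smul_comm, cP_comm]
    module

include hr in
theorem exists_phi : ∃ φ : Vc B →ₗ[K] Polynomial (Polynomial A), φ (vacc B) = 1 ∧
    (∀ (m : ℤ) (x : L) (v : Vc B), m < 0 → φ (actc B (xmL B m x) v) = mon r m.natAbs x * φ v) ∧
    ∀ v : Vc B, φ (cL B v) = cP A * φ v := by
  obtain ⟨ψ, h0, h⟩ := exists_psi (B := B)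
  refine ⟨(lift K (evN r hr)).toLinearMap.comp ψ, ?_, ?_, ?_⟩
  · rw [LinearMap.comp_apply, h0]; exact map_one (lift K (evN r hr))
  · intro m x v hm
    have h1 := h ⟨xmL B m x, xm_mem_negc m hm x⟩ v
    rw [show (((⟨xmL B m x, xm_mem_negc m hm x⟩ : negcAlg B)) : Aff B) = xmL B m x from rfl] at h1
    rw [LinearMap.comp_apply, LinearMap.comp_apply, h1, AlgHom.toLinearMap_apply,
      AlgHom.toLinearMap_apply, map_mul, lift_ι_apply]
    congr 1
    change ev0 B r (xmL B m x) = _
    rw [ev0_xm, if_pos hm]
  · intro v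
    have h1 := h ccN v
    rw [show ((ccN : negcAlg B) : Aff B) = cc B from rfl] at h1
    rw [LinearMap.comp_apply, LinearMap.comp_apply, h1, AlgHom.toLinearMap_apply,
      AlgHom.toLinearMap_apply, map_mul, lift_ι_apply]
    congr 1
    exact ev0_cc (B := B) r

/-! ### The image of `T^k |0⟩` -/

/-- The image of `c + h`. -/
def gP (A : Type w) [Ring A] [Algebra K A] (h : K) : Polynomial (Polynomial A) := cP A + h • 1

theorem gP_comm (h : K) (q : Polynomial (Polynomial A)) : gP A h * q = q * gP A h := by
  rw [gP, add_mul, mul_add, cP_comm, smul_mul_assoc, mul_smul_comm, one_mul, mul_one]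

/-- The operator `g ↦ 2 (c + h) X³ g' + g Cas X²`. -/
def Dop (h : K) (Cas : A) (g : Polynomial (Polynomial A)) : Polynomial (Polynomial A) :=
  (2 : K) • (gP A h * (Polynomial.X ^ 3 * Polynomial.derivative g))
    + g * Polynomial.monomial 2 (Polynomial.C Cas)

theorem Dop_add (h : K) (Cas : A) (g g' : Polynomial (Polynomial A)) :
    Dop h Cas (g + g') = Dop h Cas g + Dop h Cas g' := by
  rw [Dop, Dop, Dop, map_add, mul_add, mul_add, smul_add, add_mul]; abel

theorem Dop_smul (h : K) (Cas : A) (c : K) (g : Polynomial (Polynomial A)) :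
    Dop h Cas (c • g) = c • Dop h Cas g := by
  rw [Dop, Dop, Polynomial.derivative_smul, mul_smul_comm, mul_smul_comm, smul_mul_assoc, smul_add,
    smul_comm (2 : K) c]

theorem X3_monomial (k : ℕ) (a : Polynomial A) :
    (Polynomial.X ^ 3 * Polynomial.derivative (Polynomial.monomial k a) :
      Polynomial (Polynomial A)) = (k : K) • Polynomial.monomial (k + 2) a := by
  cases k with
  | zero => simp
  | succ k =>
    rw [Polynomial.derivative_monomial, Polynomial.X_pow_mul, Polynomial.monomial_mul_X_pow,
      Polynomial.smul_monomial]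
    congr 1
    rw [← nsmul_eq_mul', Nat.cast_smul_eq_nsmul]

theorem Dop_mul (h : K) (Cas : A) (k : ℕ) (a : Polynomial A) (g : Polynomial (Polynomial A)) :
    Dop h Cas (Polynomial.monomial k a * g) = Polynomial.monomial k a * Dop h Cas g
      + (2 * k : K) • (gP A h * (Polynomial.monomial (k + 2) a * g)) := by
  rw [Dop, Dop, Polynomial.derivative_mul, mul_add, mul_add, smul_add, ← mul_assoc (Polynomial.X ^ 3),
    X3_monomial (K := K), smul_mul_assoc, mul_smul_comm, smul_smul, mul_add, mul_smul_comm,
    ← mul_assoc (Polynomial.X ^ 3), Polynomial.X_pow_mul, ← mul_assoc (Polynomial.monomial k a) (gP A h),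
    ← gP_comm h (Polynomial.monomial k a)]
  simp only [mul_assoc]
  abel

theorem Dop_cP (h : K) (Cas : A) (g : Polynomial (Polynomial A)) :
    Dop h Cas (cP A * g) = cP A * Dop h Cas g := by
  have : cP A = Polynomial.monomial 0 Polynomial.X := rfl
  rw [this, Dop_mul]
  simp

theorem phi_T {h : K} {n : ℕ} {a b : Fin n → L} {T : Vc B →ₗ[K] Vc B} (hT0 : T (vacc B) = sug a b)
    (hT : ∀ X v, T (actc B X v) = actc B X (T v) + Eh h (actc B (delta X) v))
    {φ : Vc B →ₗ[K] Polynomial (Polynomial A)} (hφ0 : φ (vacc B) = 1)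
    (hφ : ∀ (m : ℤ) (x : L) (v : Vc B), m < 0 →
      φ (actc B (xmL B m x) v) = mon r m.natAbs x * φ v)
    (hφc : ∀ v : Vc B, φ (cL B v) = cP A * φ v)
    (v : Vc B) : φ (T v) = Dop h (∑ i, r (a i) * r (b i)) (φ v) := by
  induction v using neg_induction with
  | h0 =>
    have hQ : ∀ a b : L, φ (Qb a b) = Polynomial.monomial 2 (Polynomial.C (r a * r b)) := by
      intro a b
      rw [Qb_apply, hφ _ _ _ (by norm_num), hφ _ _ _ (by norm_num), hφ0, mul_one, mon_apply,
        mon_apply, Polynomial.monomial_mul_monomial, ← Polynomial.C_mul]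
      rfl
    rw [hT0, hφ0, sug, map_sum, Dop, Polynomial.derivative_one, mul_zero, mul_zero, smul_zero,
      zero_add, one_mul, map_sum, map_sum]
    exact Finset.sum_congr rfl fun i _ => hQ _ _
  | hadd v w hv hw => rw [map_add, map_add, hv, hw, map_add, Dop_add]
  | hsmul c v hv => rw [map_smul, map_smul, hv, map_smul, Dop_smul]
  | hcc v hv =>
    rw [hT, delta_cc, map_zero, LinearMap.zero_apply, map_zero, add_zero, hφc, hφc, hv, Dop_cP]
  | hneg m x v hm hv =>
    have hE : ∀ v, φ (Eh h v) = gP A h * φ v := by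
      intro v
      rw [Eh_apply, map_add, map_smul, hφc, gP, add_mul, smul_mul_assoc, one_mul]
    rw [hT, map_add, hφ _ _ _ hm, hφ _ _ _ hm, hv, hE, delta_xm, map_smul, LinearMap.smul_apply,
      map_smul, hφ _ _ _ (by omega : m - 2 < 0), mon_apply, mon_apply, Dop_mul,
      show (m - 2).natAbs = m.natAbs + 2 by omega, mul_smul_comm]
    congr 2
    have : ((m.natAbs : ℕ) : K) = -(m : K) := by
      have h : ((m.natAbs : ℕ) : ℤ) = -m := by omega
      have h' := congrArg (fun z : ℤ => (z : K)) h
      push_cast at h'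
      simpa using h'
    rw [this]; ring

/-- The polynomial `∏_{j < k} (Y + 4 j (c + h))`. -/
def gk (h : K) (k : ℕ) : Polynomial (Polynomial K) :=
  ∏ j ∈ Finset.range k, (Polynomial.C Polynomial.X
    + (j : Polynomial (Polynomial K)) * (4 * (Polynomial.X + Polynomial.C (Polynomial.C h))))

theorem gk_succ (h : K) (k : ℕ) : gk h (k + 1) = gk h k * (Polynomial.C Polynomial.X
    + (k : Polynomial (Polynomial K)) * (4 * (Polynomial.X + Polynomial.C (Polynomial.C h)))) :=
  Finset.prod_range_succ _ _

/-- `K[Y][c] → A[c]`, `Y ↦ Cas`. -/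
def mapC (Cas : A) : Polynomial (Polynomial K) →+* Polynomial A :=
  Polynomial.mapRingHom ((Polynomial.aeval Cas : Polynomial K →ₐ[K] A) : Polynomial K →+* A)

theorem mapC_X (Cas : A) : mapC (K := K) Cas Polynomial.X = Polynomial.X := by
  rw [mapC, Polynomial.coe_mapRingHom, Polynomial.map_X]

theorem mapC_CX (Cas : A) : mapC (K := K) Cas (Polynomial.C Polynomial.X) = Polynomial.C Cas := by
  rw [mapC, Polynomial.coe_mapRingHom, Polynomial.map_C]; simp

theorem mapC_CC (Cas : A) (h : K) : mapC (K := K) Cas (Polynomial.C (Polynomial.C h))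
    = Polynomial.C (algebraMap K A h) := by
  rw [mapC, Polynomial.coe_mapRingHom, Polynomial.map_C]; simp

theorem Dop_iter (h : K) (Cas : A) (k : ℕ) :
    (Dop h Cas)^[k] 1 = Polynomial.monomial (2 * k) (mapC Cas (gk h k)) := by
  induction k with
  | zero => simp [gk]
  | succ k ih =>
    rw [Function.iterate_succ_apply', ih, Dop, X3_monomial (K := K), Polynomial.monomial_mul_monomial,
      mul_smul_comm, smul_smul, gk_succ, map_mul (mapC Cas), map_add (mapC Cas), map_mul (mapC Cas),
      map_mul (mapC Cas), map_add (mapC Cas), mapC_X, mapC_CX, mapC_CC, map_natCast, map_ofNat]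
    have e1 : gP A h = Polynomial.C (Polynomial.X + Polynomial.C (algebraMap K A h)) := by
      rw [gP, cP, map_add, Algebra.smul_def, mul_one]
      rfl
    rw [e1, Polynomial.C_mul_monomial, show 2 * (k + 1) = 2 * k + 2 by ring,
      Polynomial.smul_monomial, ← map_add]
    congr 1
    rw [mul_add, add_comm]
    congr 1
    have e2 : Commute (Polynomial.X + Polynomial.C (algebraMap K A h)) (mapC Cas (gk h k)) := by
      refine Commute.add_left ?_ ?_
      · exact Polynomial.X_mul
      · exact (Algebra.commutes h (mapC Cas (gk h k)) : _)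
    rw [e2.eq]
    have e3 : ((2 * (2 * k : ℕ) : K)) • (mapC Cas (gk h k) *
        (Polynomial.X + Polynomial.C (algebraMap K A h))) =
        (4 * k : ℕ) • (mapC Cas (gk h k) * (Polynomial.X + Polynomial.C (algebraMap K A h))) := by
      rw [← Nat.cast_smul_eq_nsmul K]
      congr 1
      push_cast; ring
    rw [e3, nsmul_eq_mul, ← mul_assoc, ← mul_assoc]
    have e4 : ((4 * k : ℕ) : Polynomial A) * mapC Cas (gk h k) =
        mapC Cas (gk h k) * ((k : Polynomial A) * 4) := by
      rw [Nat.cast_comm]
      push_cast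
      rw [Nat.cast_comm k (4 : Polynomial A)]
    rw [e4, mul_assoc, mul_assoc, mul_assoc]

end eval

end MP4bfeeaAll
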