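import Pool.Agent.Work.MP_4bfeea_al.All.Final

/-!
# MP_4bfeea_al : the case of `sl_n`
-/

noncomputable section

attribute [local instance 100] LieRing.ofAssociativeRing

namespace MP4bfeeaAll

open Matrix

universe u v w

section trace

variable {R : Type u} [CommRing R] {n : ℕ} [NeZero n]

theorem charpoly_pow_char {p : ℕ} [Fact p.Prime] [CharP R p] (M : Matrix (Fin n) (Fin n) R) :
    Polynomial.expand R p (M ^ p).charpoly = M.charpoly ^ p := by
  unfold Matrix.charpoly
  rw [AlgHom.map_det, ← Matrix.det_pow]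
  congr 1
  have h1 : charmatrix M = Matrix.scalar (Fin n) (Polynomial.X : Polynomial R)
      - (Polynomial.C : R →+* Polynomial R).mapMatrix M := rfl
  have h2 : charmatrix (M ^ p) = Matrix.scalar (Fin n) (Polynomial.X : Polynomial R)
      - (Polynomial.C : R →+* Polynomial R).mapMatrix (M ^ p) := rfl
  have hc : Commute (Matrix.scalar (Fin n) (Polynomial.X : Polynomial R))
      ((Polynomial.C : R →+* Polynomial R).mapMatrix M) :=
    Matrix.scalar_commute _ (fun r => Commute.all _ _) _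
  rw [h1, sub_pow_char_of_commute p hc, h2, ← map_pow, ← map_pow]
  ext i j
  by_cases hij : i = j
  · subst hij; simp
  · simp [hij]

theorem trace_pow_char {p : ℕ} (hp : p.Prime) (hodd : p ≠ 2) [CharP R p]
    (M : Matrix (Fin n) (Fin n) R) : (M ^ p).trace = M.trace ^ p := by
  have : Fact p.Prime := ⟨hp⟩
  have : ExpChar R p := ExpChar.prime hp
  rw [Matrix.trace_eq_neg_charpoly_coeff, Matrix.trace_eq_neg_charpoly_coeff,
    Odd.neg_pow (hp.odd_of_ne_two hodd)]
  congr 1
  rw [← Polynomial.coeff_expand_mul hp.pos, charpoly_pow_char,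
    ← Polynomial.map_frobenius_expand p, Polynomial.coeff_map, Polynomial.coeff_expand_mul hp.pos,
    frobenius_def]

end trace

variable {K : Type u} [Field K] {n : ℕ}

theorem sl_bracket (x y : sl K n) : (⁅x, y⁆ : sl K n).1 = x.1 * y.1 - y.1 * x.1 := rfl

theorem sl_trace (x : sl K n) : x.1.trace = 0 := x.2

theorem sl_ad_iter (x z : sl K n) (k : ℕ) :
    ((fun z => ⁅x, z⁆)^[k] z : sl K n).1 = (fun t => x.1 * t - t * x.1)^[k] z.1 := by
  induction k with
  | zero => rfl
  | succ k ih =>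
    rw [Function.iterate_succ_apply', Function.iterate_succ_apply', ← ih, sl_bracket]

theorem exists_pm [NeZero n] {p : ℕ} (hp : p.Prime) (hodd : p ≠ 2) [CharP K p] :
    ∃ pm : sl K n → sl K n, (∀ x, (pm x).1 = x.1 ^ p) ∧ IsPMap p pm := by
  have h1 : ∀ x : sl K n, (x.1 ^ p).trace = 0 := fun x => by
    rw [trace_pow_char hp hodd, sl_trace, zero_pow hp.ne_zero]
  refine ⟨fun x => ⟨x.1 ^ p, h1 x⟩, fun x => rfl, fun x z => ?_⟩
  apply Subtype.ext
  rw [sl_ad_iter, ad_pow_char (K := K) hp hodd, sl_bracket]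

/-- `E_ij - (δ_ij / n) 1` -/
def Ep (hn : (n : K) ≠ 0) (i j : Fin n) : sl K n :=
  ⟨Matrix.single i j 1 - (if i = j then (n : K)⁻¹ else 0) • 1, by
    change Matrix.trace (_ : Matrix (Fin n) (Fin n) K) = 0
    rw [Matrix.trace_sub, Matrix.trace_smul, Matrix.trace_one, Fintype.card_fin]
    split_ifs with h
    · subst h; simp [hn]
    · simp [h]⟩

theorem Ep_val (hn : (n : K) ≠ 0) (i j : Fin n) : (Ep hn i j).1 =
    Matrix.single i j 1 - (if i = j then (n : K)⁻¹ else 0) • 1 := rfl

theorem form_Ep (hn : (n : K) ≠ 0) (x : sl K n) (i j : Fin n) :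
    (trForm K n).form x (Ep hn i j) = x.1 j i := by
  change Matrix.trace (x.1 * (Ep hn i j).1) = _
  rw [Ep_val, mul_sub, mul_smul_comm, mul_one, Matrix.trace_sub, Matrix.trace_smul, sl_trace,
    smul_zero, sub_zero, Matrix.trace_mul_single]
  simp

theorem sl_sum {ι : Type*} (s : Finset ι) (f : ι → sl K n) :
    (∑ i ∈ s, f i).1 = ∑ i ∈ s, (f i).1 := by
  let φ : sl K n →+ Matrix (Fin n) (Fin n) K :=
    { toFun := fun x => x.1, map_zero' := rfl, map_add' := fun _ _ => rfl }
  exact map_sum φ f s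

theorem lie_Ep (hn : (n : K) ≠ 0) (i j : Fin n) (y : Matrix (Fin n) (Fin n) K) :
    (Ep hn i j).1 * y - y * (Ep hn i j).1 =
      Matrix.single i j 1 * y - y * Matrix.single i j 1 := by
  rw [Ep_val, sub_mul, mul_sub, smul_mul_assoc, mul_smul_comm, one_mul, mul_one]; abel

theorem sum_single_mul (M : Matrix (Fin n) (Fin n) K) :
    ∑ i : Fin n, ∑ j : Fin n, Matrix.single i j (1 : K) * M * Matrix.single j i 1 = M.trace • 1 := by
  simp only [Matrix.single_mul_mul_single, one_mul, mul_one]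
  ext k l
  simp only [Matrix.sum_apply, Matrix.smul_apply, Matrix.one_apply, Matrix.single_apply,
    Matrix.trace, Matrix.diag_apply]
  by_cases hkl : k = l
  · subst hkl
    simp
  · simp only [hkl, if_false, smul_zero]
    refine Finset.sum_eq_zero fun i _ => Finset.sum_eq_zero fun j _ => ?_
    rw [if_neg]
    rintro ⟨rfl, rfl⟩; exact hkl rfl

theorem sl_casimir (hn : (n : K) ≠ 0) (x : sl K n) :
    ∑ i : Fin n, ∑ j : Fin n, ⁅Ep hn i j, ⁅Ep hn j i, x⁆⁆ = (2 * (n : K)) • x := by
  apply Subtype.ext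
  rw [sl_sum]
  simp only [sl_sum, sl_bracket, lie_Ep]
  change _ = (2 * (n : K)) • x.1
  have h1 : ∀ i j : Fin n, Matrix.single i j (1 : K) * (Matrix.single j i 1 * x.1 - x.1 * Matrix.single j i 1)
      - (Matrix.single j i 1 * x.1 - x.1 * Matrix.single j i 1) * Matrix.single i j 1
      = Matrix.single i j (1 : K) * 1 * Matrix.single j i 1 * x.1
        - Matrix.single i j (1 : K) * x.1 * Matrix.single j i 1
        - Matrix.single j i (1 : K) * x.1 * Matrix.single i j 1
        + x.1 * (Matrix.single j i (1 : K) * 1 * Matrix.single i j 1) := by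
    intro i j; noncomm_ring
  simp only [h1, Finset.sum_add_distrib, Finset.sum_sub_distrib, ← Finset.sum_mul,
    ← Finset.mul_sum]
  rw [sum_single_mul, sum_single_mul, Finset.sum_comm (f := fun i j =>
    Matrix.single j i (1 : K) * x.1 * Matrix.single i j 1), sum_single_mul,
    Finset.sum_comm (f := fun i j => Matrix.single j i (1 : K) * 1 * Matrix.single i j 1),
    sum_single_mul, sl_trace, Matrix.trace_one, Fintype.card_fin]
  simp only [zero_smul, sub_zero, smul_mul_assoc, one_mul, mul_smul_comm, mul_one]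
  module

theorem sl_dual (hn : (n : K) ≠ 0) (x : sl K n) :
    ∑ i : Fin n, ∑ j : Fin n, (trForm K n).form x (Ep hn i j) • Ep hn j i = x := by
  apply Subtype.ext
  rw [sl_sum]
  simp only [sl_sum, form_Ep]
  have h0 : ∀ (c : K) (y : sl K n), (c • y).1 = c • y.1 := fun _ _ => rfl
  simp only [h0, Ep_val, smul_sub, Finset.sum_sub_distrib]
  have h1 : ∑ i : Fin n, ∑ j : Fin n, x.1 j i • Matrix.single j i (1 : K) = x.1 := by
    rw [Finset.sum_comm]
    conv_rhs => rw [Matrix.matrix_eq_sum_single x.1]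
    simp
  have h2 : ∑ i : Fin n, ∑ j : Fin n, x.1 j i • (if j = i then (n : K)⁻¹ else 0) •
      (1 : Matrix (Fin n) (Fin n) K) = 0 := by
    have : ∀ i : Fin n, ∑ j : Fin n, x.1 j i • (if j = i then (n : K)⁻¹ else 0) •
      (1 : Matrix (Fin n) (Fin n) K) = x.1 i i • (n : K)⁻¹ • 1 := by
      intro i
      rw [Finset.sum_eq_single i]
      · simp
      · intro j _ hj; simp [hj]
      · simp
    simp only [this]
    rw [← Finset.sum_smul]
    have h3 : ∑ i, x.1 i i = 0 := sl_trace x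
    rw [h3, zero_smul]
  rw [h1, h2, sub_zero]

theorem sl_isDualCoxeter (hn : (n : K) ≠ 0) : IsDualCoxeter (trForm K n) (n : K) := by
  refine ⟨n * n, fun k => Ep hn (finProdFinEquiv.symm k).1 (finProdFinEquiv.symm k).2,
    fun k => Ep hn (finProdFinEquiv.symm k).2 (finProdFinEquiv.symm k).1, fun x => ?_, fun x => ?_⟩
  · rw [Equiv.sum_comp finProdFinEquiv.symm
      (fun q : Fin n × Fin n => (trForm K n).form x (Ep hn q.1 q.2) • Ep hn q.2 q.1),
      Fintype.sum_prod_type]
    exact sl_dual hn x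
  · rw [Equiv.sum_comp finProdFinEquiv.symm
      (fun q : Fin n × Fin n => ⁅Ep hn q.1 q.2, ⁅Ep hn q.2 q.1, x⁆⁆),
      Fintype.sum_prod_type]
    exact sl_casimir hn x

theorem sl_center {p : ℕ} (hp : p.Prime) (hodd : p ≠ 2) [CharP K p] (hn : (n : K) ≠ 0)
    (x : sl K n) (hx : ∀ y : sl K n, ⁅x, y⁆ = 0) : x = 0 := by
  have h1 := sl_casimir hn x
  have h2 : ∀ i j : Fin n, ⁅Ep hn j i, x⁆ = 0 := fun i j => by
    rw [← lie_skew, hx, neg_zero]
  simp only [h2, lie_zero, Finset.sum_const_zero] at h1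
  exact (smul_eq_zero.mp h1.symm).resolve_left (mul_ne_zero (two_ne_zero_char hp hodd) hn)

theorem sl_nontrivial (h2 : 2 ≤ n) : Nontrivial (sl K n) := by
  refine ⟨⟨⟨Matrix.single ⟨0, by omega⟩ ⟨1, by omega⟩ 1, ?_⟩, 0, ?_⟩⟩
  · change Matrix.trace (_ : Matrix (Fin n) (Fin n) K) = 0
    exact Matrix.trace_single_eq_of_ne _ _ _ (by simp)
  · intro h
    have h3 := congrArg (fun y : sl K n => y.1 ⟨0, by omega⟩ ⟨1, by omega⟩) h
    have h4 : (0 : sl K n).1 = 0 := rfl
    simp [h4] at h3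

end MP4bfeeaAll
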