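import Pool.Agent.Work.MP_4bfeea_al.All.Eval

/-!
# MP_4bfeea_al : dual families, and the Sugawara operator on `Vc`
-/

noncomputable section

attribute [local instance 100] LieRing.ofAssociativeRing

namespace MP4bfeeaAll

open UniversalEnvelopingAlgebra

universe u v w

variable {K : Type u} [Field K] {L : Type v} [LieRing L] [LieAlgebra K L] {B : InvForm K L}

/-! ### Dual families -/

variable (B) in
/-- The form as a bilinear map. -/
def formL : L →ₗ[K] L →ₗ[K] K :=
  LinearMap.mk₂ K B.form B.add_left (fun c x y => by rw [B.smul_left, smul_eq_mul])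
    B.add_right (fun c x y => by rw [B.smul_right, smul_eq_mul])

theorem formL_apply (x y : L) : formL B x y = B.form x y := rfl

variable {n : ℕ} {a b : Fin n → L}

section dual

variable (hab : ∀ x : L, ∑ i, B.form x (a i) • b i = x)

include hab

theorem tens_symm {W : Type w} [AddCommGroup W] [Module K W] (β : L →ₗ[K] L →ₗ[K] W) :
    ∑ i, β (a i) (b i) = ∑ i, β (b i) (a i) := by
  have h1 : ∀ i, β (a i) (b i) = ∑ j, B.form (a i) (a j) • β (b j) (b i) := by
    intro i
    conv_lhs => rw [← hab (a i)]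
    rw [map_sum, LinearMap.sum_apply]
    exact Finset.sum_congr rfl fun j _ => by rw [map_smul, LinearMap.smul_apply]
  have h2 : ∀ j, β (b j) (a j) = ∑ i, B.form (a i) (a j) • β (b j) (b i) := by
    intro j
    conv_lhs => rw [← hab (a j)]
    rw [map_sum]
    exact Finset.sum_congr rfl fun i _ => by rw [map_smul, B.symm]
  simp only [h1, h2]
  exact Finset.sum_comm

theorem dual_symm (x : L) : ∑ i, B.form x (b i) • a i = x := by
  have h := tens_symm hab
    (LinearMap.mk₂ K (fun u v : L => B.form x v • u) (fun u u' v => by rw [smul_add])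
      (fun c u v => by rw [smul_comm]) (fun u v v' => by rw [B.add_right, add_smul])
      (fun c u v => by rw [B.smul_right, mul_smul]))
  simp only [LinearMap.mk₂_apply] at h
  rw [h, hab]

theorem form_lie_left (x y z : L) : B.form ⁅x, y⁆ z = - B.form y ⁅x, z⁆ := by
  rw [← lie_skew, B.neg_left, B.inv]

theorem tens_inv {W : Type w} [AddCommGroup W] [Module K W] (β : L →ₗ[K] L →ₗ[K] W) (x : L) :
    ∑ i, β ⁅x, a i⁆ (b i) = - ∑ i, β (a i) ⁅x, b i⁆ := by
  have h1 : ∀ i, β ⁅x, a i⁆ (b i) = ∑ j, (-B.form (a i) ⁅x, b j⁆) • β (a j) (b i) := by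
    intro i
    conv_lhs => rw [← dual_symm hab ⁅x, a i⁆]
    rw [map_sum, LinearMap.sum_apply]
    exact Finset.sum_congr rfl fun j _ => by
      rw [map_smul, LinearMap.smul_apply, form_lie_left hab]
  have h2 : ∀ j, β (a j) ⁅x, b j⁆ = ∑ i, B.form (a i) ⁅x, b j⁆ • β (a j) (b i) := by
    intro j
    conv_lhs => rw [← hab ⁅x, b j⁆]
    rw [map_sum]
    exact Finset.sum_congr rfl fun i _ => by rw [map_smul, B.symm]
  simp only [h1, h2]
  rw [Finset.sum_comm, ← Finset.sum_neg_distrib]
  refine Finset.sum_congr rfl fun j _ => ?_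
  rw [← Finset.sum_neg_distrib]
  exact Finset.sum_congr rfl fun i _ => by rw [neg_smul]

/-- bracket as a bilinear map -/
theorem casimir_right {h : K} (hh : ∀ x : L, ∑ i, ⁅a i, ⁅b i, x⁆⁆ = (2 * h) • x) (x : L) :
    ∑ i, ⁅⁅x, a i⁆, b i⁆ = (2 * h) • x := by
  have h1 := tens_symm hab
    (LinearMap.mk₂ K (fun u v : L => ⁅⁅x, u⁆, v⁆) (fun u u' v => by rw [lie_add, add_lie])
      (fun c u v => by rw [lie_smul, smul_lie]) (fun u v v' => by rw [lie_add])
      (fun c u v => by rw [lie_smul]))
  simp only [LinearMap.mk₂_apply] at h1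
  rw [h1, ← hh x]
  refine Finset.sum_congr rfl fun i _ => ?_
  rw [← lie_skew, ← lie_skew x (b i), lie_neg, neg_neg]

theorem form_lie_sum (h2 : (2 : K) ≠ 0) (x : L) : ∑ i, B.form ⁅x, a i⁆ (b i) = 0 := by
  have h1 := tens_symm hab
    (LinearMap.mk₂ K (fun u v : L => B.form ⁅x, u⁆ v) (fun u u' v => by rw [lie_add, B.add_left])
      (fun c u v => by rw [lie_smul, B.smul_left, smul_eq_mul]) (fun u v v' => by rw [B.add_right])
      (fun c u v => by rw [B.smul_right, smul_eq_mul]))
  simp only [LinearMap.mk₂_apply] at h1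
  have h3 : ∑ i, B.form ⁅x, b i⁆ (a i) = - ∑ i, B.form ⁅x, a i⁆ (b i) := by
    rw [← Finset.sum_neg_distrib]
    refine Finset.sum_congr rfl fun i _ => ?_
    rw [form_lie_left hab x (a i) (b i), neg_neg, B.symm]
  rw [h3] at h1
  have h4 : (2 : K) * ∑ i, B.form ⁅x, a i⁆ (b i) = 0 := by linear_combination h1
  exact (mul_eq_zero.mp h4).resolve_left h2

end dual

/-! ### The Sugawara vector -/

/-- `a ↦ a_{-1} |0⟩` -/
def oneL : L →ₗ[K] Vc B :=
  (LinearMap.applyₗ (vacc B)).comp ((actc B).comp (xmL B (-1)))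

theorem oneL_apply (a : L) : (oneL a : Vc B) = actc B (xmL B (-1) a) (vacc B) := rfl

/-- `(a, b) ↦ a_{-1} b_{-1} |0⟩` -/
def Qb : L →ₗ[K] L →ₗ[K] Vc B :=
  LinearMap.mk₂ K (fun a b => actc B (xmL B (-1) a) (oneL b))
    (fun a a' b => by rw [map_add, map_add, LinearMap.add_apply])
    (fun c a b => by rw [map_smul, map_smul, LinearMap.smul_apply])
    (fun a b b' => by rw [map_add, map_add])
    (fun c a b => by rw [map_smul, map_smul])

theorem Qb_apply (a b : L) : (Qb a b : Vc B) =
    actc B (xmL B (-1) a) (actc B (xmL B (-1) b) (vacc B)) := rfl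

variable (B) in
/-- the action of `c` -/
abbrev cL : Vc B →ₗ[K] Vc B := actc B (cc B)

theorem cL_comm (X : Aff B) (v : Vc B) : cL B (actc B X v) = actc B X (cL B v) := by
  rw [actc_comm, cc_lie, map_zero, LinearMap.zero_apply, zero_add]

theorem actc_xm_one (m : ℤ) (hm : 0 ≤ m) (x b : L) :
    actc B (xmL B m x) (actc B (xmL B (-1) b) (vacc B)) =
      actc B (xmL B (m - 1) ⁅x, b⁆) (vacc B) + (if m = 1 then B.form x b else 0) • cL B (vacc B) := by
  rw [actc_comm, actc_xm_vac m hm, map_zero, add_zero, lie_xm_xm, ← sub_eq_add_neg, map_add,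
    LinearMap.add_apply, map_smul, LinearMap.smul_apply]
  congr 2
  by_cases h : m = 1
  · subst h; simp
  · rw [if_neg (by omega), if_neg h]

theorem actc_xm_Q (m : ℤ) (hm : 0 ≤ m) (x a b : L) :
    actc B (xmL B m x) (Qb a b) =
      actc B (xmL B (m - 1) ⁅x, a⁆) (oneL b)
      + (if m = 1 then B.form x a else 0) • cL B (oneL b)
      + actc B (xmL B (-1) a) (actc B (xmL B m x) (oneL b)) := by
  rw [Qb_apply, actc_comm, lie_xm_xm, ← sub_eq_add_neg, map_add,
    LinearMap.add_apply, map_smul, LinearMap.smul_apply, oneL_apply]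
  congr 3
  by_cases h : m = 1
  · subst h; simp
  · rw [if_neg (by omega), if_neg h]

theorem actc_zero_Q (x a b : L) :
    actc B (xmL B 0 x) (Qb a b) = Qb ⁅x, a⁆ b + Qb a ⁅x, b⁆ := by
  rw [actc_xm_Q 0 le_rfl, oneL_apply, actc_xm_one 0 le_rfl, Qb_apply, Qb_apply]
  simp

theorem actc_one_Q (x a b : L) :
    actc B (xmL B 1 x) (Qb a b) = oneL ⁅⁅x, a⁆, b⁆ + B.form x a • cL B (oneL b)
      + B.form x b • cL B (oneL a) := by
  rw [actc_xm_Q 1 (by norm_num), oneL_apply, actc_xm_one 1 (by norm_num),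
    show (1 : ℤ) - 1 = 0 by norm_num,
    actc_xm_one 0 le_rfl, actc_xm_vac 0 le_rfl, oneL_apply ⁅⁅x, a⁆, b⁆, oneL_apply a, cL_comm _ (vacc B),
    cL_comm _ (vacc B)]
  simp

theorem actc_two_Q (x a b : L) :
    actc B (xmL B 2 x) (Qb a b) = B.form ⁅x, a⁆ b • cL B (vacc B) := by
  rw [actc_xm_Q 2 (by norm_num), oneL_apply, actc_xm_one 2 (by norm_num), show (2 : ℤ) - 1 = 1 by norm_num,
    actc_xm_one 1 (by norm_num), actc_xm_vac (1 - 1) (by norm_num), actc_xm_vac 1 (by norm_num)]
  simp

theorem actc_ge_Q (m : ℤ) (hm : 3 ≤ m) (x a b : L) :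
    actc B (xmL B m x) (Qb a b) = 0 := by
  rw [actc_xm_Q m (by omega), oneL_apply, actc_xm_one m (by omega), actc_xm_one (m - 1) (by omega),
    actc_xm_vac (m - 1 - 1) (by omega), actc_xm_vac (m - 1) (by omega), if_neg (by omega),
    if_neg (by omega), if_neg (by omega)]
  simp

/-- `s = ∑ (a_i)_{-1} (b_i)_{-1} |0⟩`. -/
def sug (a b : Fin n → L) : Vc B := ∑ i, Qb (a i) (b i)

/-- the action of `c + h` -/
def Eh (h : K) : Vc B →ₗ[K] Vc B := cL B + h • LinearMap.id

theorem Eh_apply (h : K) (v : Vc B) : Eh h v = cL B v + h • v := rfl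

theorem Eh_comm (h : K) (X : Aff B) (v : Vc B) : Eh h (actc B X v) = actc B X (Eh h v) := by
  rw [Eh_apply, Eh_apply, cL_comm, map_add, map_smul]

theorem actc_sug (h2 : (2 : K) ≠ 0) (hab : ∀ x : L, ∑ i, B.form x (a i) • b i = x) {h : K}
    (hh : ∀ x : L, ∑ i, ⁅a i, ⁅b i, x⁆⁆ = (2 * h) • x) (m : ℤ) (x : L) (hm : 0 ≤ m) :
    actc B (xmL B m x) (sug a b) = (2 * (m : K)) • Eh h (actc B (xmL B (m - 2) x) (vacc B)) := by
  rw [sug, map_sum]
  rcases (by omega : m = 0 ∨ m = 1 ∨ m = 2 ∨ 3 ≤ m) with rfl | rfl | rfl | h3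
  · simp only [actc_zero_Q, Finset.sum_add_distrib]
    rw [tens_inv hab Qb x]
    simp
  · simp only [actc_one_Q, Finset.sum_add_distrib]
    rw [← map_sum, casimir_right hab hh x]
    have e1 : ∑ i, B.form x (a i) • cL B (oneL (b i)) = cL B (oneL x) := by
      conv_rhs => rw [← hab x]
      simp only [map_sum, map_smul]
    have e2 : ∑ i, B.form x (b i) • cL B (oneL (a i)) = cL B (oneL x) := by
      conv_rhs => rw [← dual_symm hab x]
      simp only [map_sum, map_smul]
    rw [e1, e2, show (1 : ℤ) - 2 = -1 by norm_num, ← oneL_apply, Eh_apply, map_smul]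
    simp only [Int.cast_one, mul_one]
    module
  · simp only [actc_two_Q]
    rw [← Finset.sum_smul, form_lie_sum hab h2, zero_smul, actc_xm_vac _ (by norm_num), map_zero,
      smul_zero]
  · simp only [actc_ge_Q m h3, Finset.sum_const_zero]
    rw [actc_xm_vac _ (by omega), map_zero, smul_zero]

/-! ### The operator -/

/-- The derivation `δ(x_m) = -2 m x_{m-2}`, `δ(c) = 0`. -/
def delta : Aff B →ₗ[K] Aff B := affLift B (fun m => (-(2 * m : K)) • xmL B (m - 2)) 0

theorem delta_xm (m : ℤ) (x : L) :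
    delta (xmL B m x) = (-(2 * m : K)) • xmL B (m - 2) x := by
  rw [delta, affLift_xm]; rfl

theorem delta_cc : delta (cc B) = 0 := by rw [delta, affLift_cc]

theorem delta_lie (X Y : Aff B) : delta ⁅X, Y⁆ = ⁅delta X, Y⁆ + ⁅X, delta Y⁆ := by
  induction X using Aff_induction with
  | hadd X X' hX hX' => rw [add_lie, map_add, hX, hX', map_add, add_lie, add_lie]; abel
  | hc a => simp [delta_cc, cc_lie]
  | hx m x =>
    induction Y using Aff_induction with
    | hadd Y Y' hY hY' => rw [lie_add, map_add, hY, hY', map_add, lie_add, lie_add]; abel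
    | hc a => simp [delta_cc, lie_cc]
    | hx n y =>
      rw [lie_xm_xm, map_add, map_smul, delta_cc, delta_xm, delta_xm, delta_xm, smul_lie, lie_smul,
        lie_xm_xm, lie_xm_xm, show m - 2 + n = m + n - 2 by ring,
        show m + (n - 2) = m + n - 2 by ring]
      simp only [smul_add, smul_zero, add_zero, smul_smul]
      have e : ((-(2 * (m : K))) * (if m + n - 2 = 0 then ((m - 2 : ℤ) : K) * B.form x y else 0) +
        (-(2 * (n : K))) * (if m + n - 2 = 0 then (m : K) * B.form x y else 0)) = 0 := by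
        split_ifs with h
        · have h' : n = 2 - m := by omega
          subst h'; push_cast; ring
        · ring
      have e2 : (-(2 * ((m + n : ℤ) : K))) • xmL B (m + n - 2) ⁅x, y⁆
        = (-(2 * (m : K))) • xmL B (m + n - 2) ⁅x, y⁆
          + (-(2 * (n : K))) • xmL B (m + n - 2) ⁅x, y⁆ := by
        rw [← add_smul]; congr 1; push_cast; ring
      rw [e2]
      have e3 : ∀ a b : K, a + b = 0 → ∀ p q r : Aff B, p + q = (p + a • r) + (q + b • r) := by
        intro a b hab p q r
        have : b = -a := by rw [eq_neg_iff_add_eq_zero, add_comm]; exact hab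
        rw [this, neg_smul]; abel
      exact e3 _ _ e _ _ _

/-- The action of `ĝ` on `Vc × Vc` by `X (v, w) = (X v + (c + h) δ(X) w, X w)`. -/
def rho2 (h : K) : Aff B →ₗ⁅K⁆ Module.End K (Vc B × Vc B) where
  toFun X :=
    { toFun := fun p => (actc B X p.1 + Eh h (actc B (delta X) p.2), actc B X p.2)
      map_add' := fun p q => by
        apply Prod.ext
        · simp only [Prod.fst_add, Prod.snd_add, map_add]; abel
        · simp
      map_smul' := fun c p => by
        apply Prod.ext
        · simp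
        · simp }
  map_add' X Y := LinearMap.ext fun p => by
    apply Prod.ext
    · simp only [LinearMap.coe_mk, AddHom.coe_mk, map_add, LinearMap.add_apply, Prod.fst_add]; abel
    · simp
  map_smul' c X := LinearMap.ext fun p => by
    apply Prod.ext
    · simp
    · simp
  map_lie' {X Y} := LinearMap.ext fun p => by
    apply Prod.ext
    · simp only [LinearMap.coe_mk, AddHom.coe_mk, LieRing.of_associative_ring_bracket,
        LinearMap.sub_apply, Module.End.mul_apply, Prod.fst_sub, actc_lie, delta_lie, map_add,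
        LinearMap.add_apply, ← Eh_comm, map_sub]
      abel
    · simp only [LinearMap.coe_mk, AddHom.coe_mk, LieRing.of_associative_ring_bracket,
        LinearMap.sub_apply, Module.End.mul_apply, Prod.snd_sub, actc_lie]

theorem exists_Lop (h2 : (2 : K) ≠ 0) (hab : ∀ x : L, ∑ i, B.form x (a i) • b i = x) {h : K}
    (hh : ∀ x : L, ∑ i, ⁅a i, ⁅b i, x⁆⁆ = (2 * h) • x) :
    ∃ T : Vc B →ₗ[K] Vc B, T (vacc B) = sug a b ∧
      ∀ X v, T (actc B X v) = actc B X (T v) + Eh h (actc B (delta X) v) := by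
  obtain ⟨f, hf0, hf⟩ := Vc_lift (rho2 (B := B) h) (sug a b, vacc B)
    (by
      intro m x hm
      apply Prod.ext
      · change actc B (xmL B m x) (sug a b) + Eh h (actc B (delta (xmL B m x)) (vacc B)) = 0
        rw [actc_sug h2 hab hh m x hm, delta_xm, map_smul, LinearMap.smul_apply, map_smul, neg_smul,
          add_neg_cancel]
      · exact actc_xm_vac m hm x)
  have hsnd : (LinearMap.snd K (Vc B) (Vc B)).comp f = LinearMap.id := by
    apply Vc_hom_ext
    · rw [LinearMap.comp_apply, hf0]; rfl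
    · intro X v hv
      rw [LinearMap.comp_apply, hf]
      change actc B X ((LinearMap.snd K (Vc B) (Vc B)).comp f v) = actc B X v
      rw [hv]; rfl
  refine ⟨(LinearMap.fst K (Vc B) (Vc B)).comp f, ?_, ?_⟩
  · rw [LinearMap.comp_apply, hf0]; rfl
  · intro X v
    rw [LinearMap.comp_apply, hf]
    change actc B X (f v).1 + Eh h (actc B (delta X) ((LinearMap.snd K (Vc B) (Vc B)).comp f v)) = _
    rw [hsnd]; rfl

end MP4bfeeaAll
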